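import Mathlib

/-!
# A type-3 set mapping with finite values on a set of size `μ⁺⁺` without free set of size `μ⁺`
(assuming only `2 ^ μ = μ⁺`).
-/

set_option autoImplicit false

open Cardinal Ordinal Set

universe u

namespace H43.FreeSet

/-! ### Distinct representatives -/

/-- An injective choice function for at most `μ` sets of size at least `μ`, avoiding a finite set. -/
theorem exists_inj_choice {S ι : Type u} {μ : Cardinal.{u}} (hμ : ℵ₀ ≤ μ) (hι : #ι ≤ μ)
    (A : ι → Set S) (hA : ∀ i, μ ≤ #(A i)) (F : Set S) (hF : F.Finite) :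
    ∃ rep : ι → S, Function.Injective rep ∧ ∀ i, rep i ∈ A i ∧ rep i ∉ F := by
  classical
  rcases isEmpty_or_nonempty ι with hE | ⟨⟨i0⟩⟩
  · exact ⟨fun i => hE.elim i, fun i => hE.elim i, fun i => hE.elim i⟩
  have hS : Nonempty S := by
    have h1 : (A i0).Nonempty := by
      rw [← Set.nonempty_coe_sort, ← Cardinal.mk_ne_zero_iff]
      intro h0
      have := hA i0
      rw [h0] at this
      exact absurd (hμ.trans this) (not_le.mpr Cardinal.aleph0_pos)
    exact ⟨h1.some⟩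
  have hM : #ι ≤ #(μ.ord.ToType) := by rw [mk_ord_toType]; exact hι
  obtain ⟨j⟩ := Cardinal.le_def _ _ |>.mp hM
  have wf : WellFounded (fun a b : ι => j a < j b) := InvImage.wf j wellFounded_lt
  let C : ∀ i : ι, (∀ k : ι, j k < j i → S) → S := fun i prev =>
    if h : (A i \ (F ∪ {x | ∃ k hk, prev k hk = x})).Nonempty then h.some else hS.some
  let rep : ι → S := wf.fix C
  have hrep : ∀ i, rep i = C i (fun k _ => rep k) := fun i => wf.fix_eq C i
  have hne : ∀ i, (A i \ (F ∪ {x | ∃ k, ∃ _ : j k < j i, rep k = x})).Nonempty := by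
    intro i
    by_contra hcon
    rw [Set.not_nonempty_iff_eq_empty, Set.sdiff_eq_empty] at hcon
    have h1 : #(A i) ≤ #(F ∪ {x | ∃ k, ∃ _ : j k < j i, rep k = x} : Set S) :=
      Cardinal.mk_le_mk_of_subset hcon
    have h2 : #({x | ∃ k, ∃ _ : j k < j i, rep k = x} : Set S) < μ := by
      have h3 : ({x | ∃ k, ∃ _ : j k < j i, rep k = x} : Set S) ⊆ rep '' {k | j k < j i} := by
        rintro x ⟨k, hk, rfl⟩
        exact ⟨k, hk, rfl⟩
      have h4 : #({k | j k < j i} : Set ι) ≤ #(Iio (j i)) := by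
        refine Cardinal.mk_le_of_injective (f := fun k : {k | j k < j i} => (⟨j k.1, k.2⟩ : Iio (j i))) ?_
        intro a b hab
        exact Subtype.ext (j.injective (congrArg Subtype.val hab))
      exact lt_of_le_of_lt (Cardinal.mk_le_mk_of_subset h3)
        (lt_of_le_of_lt Cardinal.mk_image_le (lt_of_le_of_lt h4 (Cardinal.mk_Iio_toType_ord_lt _)))
    have h5 : #F < μ := lt_of_lt_of_le hF.lt_aleph0 hμ
    exact absurd ((hA i).trans (h1.trans (Cardinal.mk_union_le _ _)))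
      (not_le.mpr (Cardinal.add_lt_of_lt hμ h5 h2))
  have hmem : ∀ i, rep i ∈ A i \ (F ∪ {x | ∃ k, ∃ _ : j k < j i, rep k = x}) := by
    intro i
    rw [hrep i]
    simp only [C]
    rw [dif_pos (hne i)]
    exact (hne i).some_mem
  refine ⟨rep, ?_, fun i => ⟨(hmem i).1, fun h => (hmem i).2 (Or.inl h)⟩⟩
  intro a b hab
  rcases lt_trichotomy (j a) (j b) with h | h | h
  · exact absurd (Or.inr ⟨a, h, hab⟩) (hmem b).2
  · exact j.injective h
  · exact absurd (Or.inr ⟨b, h, hab.symm⟩) (hmem a).2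

/-- One unary function killing at most `μ` prescribed sets of size at least `μ`. -/
theorem exists_killer {S ι : Type u} {μ : Cardinal.{u}} (hμ : ℵ₀ ≤ μ) (hι : #ι ≤ μ)
    (A : ι → Set S) (hA : ∀ i, μ ≤ #(A i)) (F : Set S) (hF : F.Finite) :
    ∃ g : S → S, ∀ i, ∃ α ∈ A i, α ∉ F ∧ g α ∈ A i ∧ g α ∉ F ∧ g α ≠ α := by
  classical
  obtain ⟨rep, hinj, hrep⟩ := exists_inj_choice hμ hι A hA F hF
  have h : ∀ i, ∃ δ, δ ∈ A i ∧ δ ∉ F ∧ δ ≠ rep i := by
    intro i
    by_contra hcon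
    push Not at hcon
    have hsub : A i ⊆ F ∪ {rep i} := by
      intro x hx
      by_cases hxF : x ∈ F
      · exact Or.inl hxF
      · exact Or.inr (hcon x hx hxF)
    have hfin : (F ∪ {rep i}).Finite := hF.union (Set.finite_singleton _)
    have h1 : #(A i) < ℵ₀ := lt_of_le_of_lt (Cardinal.mk_le_mk_of_subset hsub) hfin.lt_aleph0
    exact absurd (hμ.trans (hA i)) (not_le.mpr h1)
  choose d hd1 hd2 hd3 using h
  refine ⟨Function.extend rep d id, fun i => ⟨rep i, (hrep i).1, (hrep i).2, ?_⟩⟩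
  rw [hinj.extend_apply]
  exact ⟨hd1 i, hd2 i, hd3 i⟩

/-! ### Enumerations -/

theorem exists_inj_on {S L : Type u} (B : Set S) (h : #B ≤ #L) (hL : Nonempty L) :
    ∃ e : S → L, InjOn e B := by
  classical
  obtain ⟨j⟩ := Cardinal.le_def _ _ |>.mp h
  refine ⟨fun x => if hx : x ∈ B then j ⟨x, hx⟩ else hL.some, ?_⟩
  intro x hx y hy hxy
  simp only [hx, hy, dif_pos] at hxy
  have := j.injective hxy
  simpa using this

theorem exists_enum {S L : Type u} {μ : Cardinal.{u}} (hμ : ℵ₀ ≤ μ) (h2 : 2 ^ μ = Order.succ μ)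
    (hL : #L = Order.succ μ) (B : Set S) (hB : #B ≤ Order.succ μ) :
    ∃ E : L → Set S, ∀ A : Set S, A ⊆ B → #A = μ → ∃ η, E η = A := by
  classical
  have h1 : #{t : Set S // t ⊆ B ∧ #t ≤ μ} ≤ #L := by
    refine (Cardinal.mk_bounded_subset_le B μ).trans ?_
    have h3 : max #B ℵ₀ ≤ 2 ^ μ := by
      rw [h2]
      exact max_le hB (hμ.trans (Order.le_succ μ))
    calc max #B ℵ₀ ^ μ ≤ (2 ^ μ) ^ μ := Cardinal.power_le_power_right h3
      _ = 2 ^ (μ * μ) := by rw [Cardinal.power_mul]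
      _ = #L := by rw [Cardinal.mul_eq_self hμ, h2, hL]
  obtain ⟨j⟩ := Cardinal.le_def _ _ |>.mp h1
  refine ⟨fun η => {x | ∃ A : {t : Set S // t ⊆ B ∧ #t ≤ μ}, j A = η ∧ x ∈ A.1}, ?_⟩
  intro A hAB hA
  refine ⟨j ⟨A, hAB, hA.le⟩, ?_⟩
  ext x
  constructor
  · rintro ⟨A', h, hx⟩
    have := j.injective h
    subst this
    exact hx
  · intro hx
    exact ⟨_, rfl, hx⟩

/-! ### Finite extensions -/

theorem exists_extend {S : Type u} (T : Set S) (hT : T.Infinite) (F : Finset S) (hF : (F : Set S) ⊆ T)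
    (δ : S) (hδ : δ ∉ F) (n : ℕ) (hn : F.card ≤ n) :
    ∃ X : Finset S, X.card = n ∧ F ⊆ X ∧ (X : Set S) ⊆ T ∧ δ ∉ X := by
  classical
  have h1 : (T \ (F ∪ {δ} : Finset S)).Infinite := hT.sdiff (Finset.finite_toSet _)
  obtain ⟨Y, hY, hc⟩ := h1.exists_subset_card_eq (n - F.card)
  refine ⟨F ∪ Y, ?_, Finset.subset_union_left, ?_, ?_⟩
  · rw [Finset.card_union_of_disjoint, hc]
    · omega
    · rw [Finset.disjoint_left]
      intro x hx hx'
      have := hY hx'
      simp at this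
      tauto
  · rw [Finset.coe_union]
    exact Set.union_subset hF (fun x hx => (hY hx).1)
  · rw [Finset.mem_union, not_or]
    refine ⟨hδ, fun hx => ?_⟩
    have := hY hx
    simp at this

/-! ### The order type `(succ μ).ord` -/

theorem mk_Iic_le {μ : Cardinal.{u}} (hμ : ℵ₀ ≤ μ) (x : (Order.succ μ).ord.ToType) :
    #(Iic x) ≤ μ := by
  have h1 : #(Iio x) < Order.succ μ := Cardinal.mk_Iio_toType_ord_lt x
  have h2 : #(Iio x) ≤ μ := Order.lt_succ_iff.mp h1
  have h3 : (Iic x) = insert x (Iio x) := by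
    ext y; simp [le_iff_eq_or_lt]
  rw [h3]
  refine (Cardinal.mk_insert_le).trans ?_
  calc #(Iio x) + 1 ≤ μ + 1 := add_le_add_left h2 1
    _ = μ := Cardinal.add_one_eq hμ

theorem exists_bound {μ : Cardinal.{u}} (hμ : ℵ₀ ≤ μ) (B : Set (Order.succ μ).ord.ToType)
    (hB : #B ≤ μ) : ∃ a, ∀ b ∈ B, b < a := by
  by_contra hcon
  push Not at hcon
  have h1 : (Set.univ : Set (Order.succ μ).ord.ToType) ⊆ ⋃ b : B, Iic (b : (Order.succ μ).ord.ToType) := by
    intro a _
    obtain ⟨b, hb, hab⟩ := hcon a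
    exact Set.mem_iUnion.mpr ⟨⟨b, hb⟩, hab⟩
  have h2 : #(Set.univ : Set (Order.succ μ).ord.ToType) ≤ μ := by
    refine (Cardinal.mk_le_mk_of_subset h1).trans ((Cardinal.mk_iUnion_le_sum_mk).trans ?_)
    calc Cardinal.sum (fun b : B => #(Iic (b : (Order.succ μ).ord.ToType)))
        ≤ Cardinal.sum (fun _ : B => μ) := Cardinal.sum_le_sum _ _ (fun b => mk_Iic_le hμ _)
      _ = #B * μ := by rw [Cardinal.sum_const']
      _ ≤ μ * μ := mul_le_mul_left hB μ
      _ = μ := Cardinal.mul_eq_self hμ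
  rw [Cardinal.mk_univ, mk_ord_toType] at h2
  exact absurd h2 (not_le.mpr (Order.lt_succ μ))

/-- Every set of size `≥ succ μ` in a well order contains a copy of `(succ μ).ord`. -/
theorem exists_copy {S : Type u} [LinearOrder S] [WellFoundedLT S] {μ : Cardinal.{u}} (T : Set S)
    (hT : Order.succ μ ≤ #T) :
    ∃ φ : (Order.succ μ).ord.ToType → S, StrictMono φ ∧ ∀ i, φ i ∈ T := by
  have h1 : Ordinal.type (α := (Order.succ μ).ord.ToType) (· < ·) ≤ Ordinal.type (α := T) (· < ·) := by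
    rw [Ordinal.type_toType, Cardinal.ord_le]
    exact hT
  obtain ⟨f⟩ := Ordinal.type_le_iff.mp h1
  refine ⟨fun i => (f i : S), ?_, fun i => (f i).2⟩
  intro i j hij
  exact f.map_rel_iff.mpr hij

end H43.FreeSet
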