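import Pool.Agent.H43.FreeSet.Step
import Pool.Agent.H43.FreeSet.Three

set_option autoImplicit false

open Cardinal Ordinal Set

namespace H43.FreeSet

theorem exists_seq {κ : Cardinal.{0}} (hκ : ℵ₀ ≤ κ) (hcof : κ.ord.cof = ℵ₀) :
    ∃ s : ℕ → Ordinal.{0}, Monotone s ∧ (∀ r, s r < κ.ord) ∧ ∀ x < κ.ord, ∃ r, x < s r := by
  have hlim := Cardinal.isSuccLimit_ord hκ
  obtain ⟨C, hC, hC2⟩ := Order.exists_cof_eq κ.ord.ToType
  rw [Ordinal.cof_toType, hcof] at hC2
  have hne : Nonempty C := by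
    rw [← Cardinal.mk_ne_zero_iff, hC2]
    exact Cardinal.aleph0_ne_zero
  have hcount : Countable C := by
    rw [← Cardinal.mk_le_aleph0_iff, hC2]
  obtain ⟨f, hf⟩ := exists_surjective_nat C
  let t : ℕ → Ordinal.{0} := fun k => (ToType.mk.symm (f k).1 : Iio κ.ord).1
  have ht : ∀ k, t k < κ.ord := fun k => (ToType.mk.symm (f k).1 : Iio κ.ord).2
  refine ⟨fun r => (Finset.range (r + 1)).sup (fun k => t k + 1), ?_, ?_, ?_⟩
  · intro r r' hr
    exact Finset.sup_mono (Finset.range_mono (by omega))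
  · intro r
    rw [Finset.sup_lt_iff hlim.bot_lt]
    intro k _
    exact hlim.add_one_lt (ht k)
  · intro x hx
    obtain ⟨y, hy, hxy⟩ := hC (ToType.mk ⟨x, hx⟩)
    obtain ⟨r, hr⟩ := hf ⟨y, hy⟩
    refine ⟨r, ?_⟩
    have h1 : x ≤ t r := by
      have h2 : (⟨x, hx⟩ : Iio κ.ord) ≤ ToType.mk.symm (f r).1 := by
        rw [hr]
        exact (OrderIso.le_symm_apply _).mpr hxy
      exact h2
    calc x < t r + 1 := Order.lt_add_one_iff.mpr h1
      _ ≤ _ := Finset.le_sup (f := fun k => t k + 1) (Finset.mem_range.mpr (Nat.lt_succ_self r))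

theorem exists_e (κ : Cardinal.{0}) (i : ℕ) (b : Ordinal.{0}) :
    ∃ f : Ordinal.{0} → Ordinal.{0}, InjOn f (Iio b) ∧
      (b < L κ (i + 1) → ∀ a < b, f a < L κ i) := by
  classical
  by_cases hb : b < L κ (i + 1)
  · have h1 : b.card < Order.succ^[i + 1] κ := Cardinal.lt_ord.mp hb
    rw [Function.iterate_succ_apply', Order.lt_succ_iff] at h1
    have h2 : #(Iio b) ≤ #(Iio (L κ i)) := by
      rw [Cardinal.mk_Iio_ordinal, Cardinal.mk_Iio_ordinal, Cardinal.lift_le, L,
        Cardinal.card_ord]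
      exact h1
    obtain ⟨g⟩ := h2
    refine ⟨fun a => if h : a < b then (g ⟨a, h⟩).1 else 0, ?_, ?_⟩
    · intro x hx y hy hxy
      simp only [dif_pos (show x < b from hx), dif_pos (show y < b from hy)] at hxy
      have := g.injective (Subtype.ext hxy)
      exact congrArg Subtype.val this
    · intro _ a ha
      simp only [dif_pos ha]
      exact (g ⟨a, ha⟩).2
  · exact ⟨id, injOn_id _, fun h => absurd h hb⟩

theorem exists_sys {κ : Cardinal.{0}} (hκ : ℵ₀ ≤ κ) (hcof : κ.ord.cof = ℵ₀) :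
    ∃ s e, Sys κ s e := by
  obtain ⟨s, h1, h2, h3⟩ := exists_seq hκ hcof
  choose e he1 he2 using exists_e κ
  exact ⟨s, e, he1, he2, h1, h2, h3⟩

theorem first_elems {T : Set Ordinal.{0}} (hT : T.Infinite) : ∀ n : ℕ,
    ∃ A : Finset Ordinal.{0}, (A : Set Ordinal.{0}) ⊆ T ∧ A.card = n ∧
      ∀ a ∈ A, ∀ t ∈ T, t ∉ A → a < t := by
  classical
  intro n
  induction n with
  | zero => exact ⟨∅, by simp, by simp, by simp⟩
  | succ n ih =>
    obtain ⟨A, hA, hn, hlt⟩ := ih
    have hne : (T \ (A : Set Ordinal.{0})).Nonempty := (hT.sdiff A.finite_toSet).nonempty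
    have hmin := csInf_mem hne
    set t₀ := sInf (T \ (A : Set Ordinal.{0})) with ht₀
    have hmin2 : t₀ ∉ A := fun h => hmin.2 h
    refine ⟨insert t₀ A, ?_, ?_, ?_⟩
    · rw [Finset.coe_insert]
      exact Set.insert_subset hmin.1 hA
    · rw [Finset.card_insert_of_notMem hmin2, hn]
    · intro a ha t ht htA
      rw [Finset.mem_insert, not_or] at htA
      rw [Finset.mem_insert] at ha
      rcases ha with rfl | ha
      · exact lt_of_le_of_ne (csInf_le' ⟨ht, htA.2⟩) (Ne.symm htA.1)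
      · exact hlt a ha t ht htA.2

theorem allN {κ : Cardinal.{0}} (hκ : ℵ₀ ≤ κ) (hcof : κ.ord.cof = ℵ₀) {n : ℕ} (hn : 1 ≤ n)
    (S : Type) (hS : #S = Order.succ^[n] κ) :
    ∃ f : Finset S → Set S,
      (∀ X : Finset S, #(f X) < κ ∧ Disjoint (X : Set S) (f X)) ∧
      ∀ m : ℕ, n ≤ m → ∀ T : Set S,
        (∀ X : Finset S, X.card = m → (X : Set S) ⊆ T → Disjoint T (f X)) →
        #T < Order.succ (Order.succ κ) := by
  classical
  obtain ⟨s, e, h⟩ := exists_sys hκ hcof
  obtain ⟨i, rfl⟩ : ∃ i, n = i + 1 := ⟨n - 1, by omega⟩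
  obtain ⟨M, hM, hclaim⟩ := exists_claim hκ h i
  have hequiv : Nonempty (S ≃ Iio (L κ (i + 1))) := by
    rw [← Cardinal.lift_mk_eq', Cardinal.mk_Iio_ordinal, L, Cardinal.card_ord, hS,
      Cardinal.lift_id']
  obtain ⟨eq⟩ := hequiv
  let o : S → Ordinal.{0} := fun x => (eq x).1
  have ho : Function.Injective o := fun x y hxy => eq.injective (Subtype.ext hxy)
  have hoL : ∀ x, o x < L κ (i + 1) := fun x => (eq x).2
  refine ⟨fun X => {y | y ∉ X ∧ o y ∈ D s e (i + 1) 0 (X.image o)}, ?_, ?_⟩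
  · intro X
    constructor
    · have h1 : Cardinal.lift.{1} #{y | y ∉ X ∧ o y ∈ D s e (i + 1) 0 (X.image o)} ≤
          Cardinal.lift.{0} #(D s e (i + 1) 0 (X.image o)) :=
        Cardinal.lift_mk_le_lift_mk_of_injective
          (f := fun y : {y | y ∉ X ∧ o y ∈ D s e (i + 1) 0 (X.image o)} =>
            (⟨o y.1, y.2.2⟩ : D s e (i + 1) 0 (X.image o)))
          (fun x y hxy => by
            have h0 : o x.1 = o y.1 :=
              congrArg (fun z : D s e (i + 1) 0 (X.image o) => z.1) hxy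
            exact Subtype.ext (ho h0))
      rw [Cardinal.lift_id'] at h1
      exact Cardinal.lift_lt.mp (h1.trans_lt (mk_D_lt hκ h (i + 1) 0 (X.image o)))
    · rw [Set.disjoint_left]
      intro x hx hx'
      exact hx'.1 hx
  · intro m hm T hfree
    by_contra hT0
    have hT : Order.succ (Order.succ κ) ≤ #T := not_lt.mp hT0
    have hκ2 : ℵ₀ ≤ Order.succ (Order.succ κ) :=
      (hκ.trans (Order.le_succ κ)).trans (Order.le_succ _)
    have hTinf : T.Infinite := by
      rw [← Set.infinite_coe_iff, Cardinal.infinite_iff]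
      exact hκ2.trans hT
    have hT' : Cardinal.lift.{1} (Order.succ (Order.succ κ)) ≤ #(o '' T) := by
      have h1 := Cardinal.mk_image_eq_lift o T ho
      rw [Cardinal.lift_id'] at h1
      rw [h1]
      exact Cardinal.lift_le.mpr hT
    have hT'inf : (o '' T).Infinite := hTinf.image ho.injOn
    obtain ⟨A, hA, hAc, hAlt⟩ := first_elems hT'inf (i + 1)
    have hT'' : Cardinal.lift.{1} (Order.succ (Order.succ κ)) ≤
        #((o '' T) \ (A : Set Ordinal.{0}) : Set Ordinal.{0}) := by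
      by_contra hcon
      rw [not_le] at hcon
      have h2 : o '' T ⊆ ((o '' T) \ (A : Set Ordinal.{0})) ∪ (A : Set Ordinal.{0}) := fun x hx => by
        by_cases hxu : x ∈ (A : Set Ordinal.{0})
        · exact Or.inr hxu
        · exact Or.inl ⟨hx, hxu⟩
      have h3 := (Cardinal.mk_le_mk_of_subset h2).trans (Cardinal.mk_union_le _ _)
      have hκ' : ℵ₀ ≤ Cardinal.lift.{1} (Order.succ (Order.succ κ)) := by
        rw [← Cardinal.lift_aleph0.{1, 0}]
        exact Cardinal.lift_le.mpr hκ2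
      have h4 : #((A : Set Ordinal.{0}) : Set Ordinal.{0}) < Cardinal.lift.{1} (Order.succ (Order.succ κ)) :=
        (Cardinal.lt_aleph0_iff_set_finite.mpr A.finite_toSet).trans_le hκ'
      exact absurd (Cardinal.add_lt_of_lt hκ' hcon h4) (not_lt.mpr (hT'.trans h3))
    obtain ⟨w, hw, hlarge⟩ := exists_large hκ hM hT''
    obtain ⟨x₀, hx₀, rfl⟩ := hw.1
    obtain ⟨F, E, hF, hE, hcard, y, hy, hyE, hmem⟩ := hclaim (o x₀)
      (((o '' T) \ (A : Set Ordinal.{0})) ∩ Iio (o x₀)) id A id (hoL x₀) hlarge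
      (fun a _ b _ hab => hab) (fun z hz => hz.2) hAc.ge (injOn_id _)
      (fun a ha => hAlt a ha _ hw.1 hw.2)
    rw [Finset.image_id, Finset.image_id] at hmem
    obtain ⟨y₀, hy₀, rfl⟩ := hA hy
    -- the finite set `{w} ∪ F ∪ E`
    set P : Finset Ordinal.{0} := insert (o x₀) (F ∪ E) with hP
    have hPT : ∀ p ∈ P, p ∈ o '' T := by
      intro p hp
      rw [hP, Finset.mem_insert, Finset.mem_union] at hp
      rcases hp with rfl | hp | hp
      · exact hw.1
      · exact (hF hp).1.1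
      · exact hA (hE hp)
    have hyP : o y₀ ∉ P := by
      rw [hP, Finset.mem_insert, Finset.mem_union]
      rintro (h1 | h1 | h1)
      · exact hw.2 (by rw [← h1]; exact hy)
      · exact (hF h1).1.2 hy
      · exact hyE h1
    have hPc : P.card ≤ i + 1 := by
      have h1 := Finset.card_insert_le (o x₀) (F ∪ E)
      have h2 := Finset.card_union_le F E
      rw [← hP] at h1
      omega
    let F₀ : Finset S := P.preimage o ho.injOn
    have hF₀T : (F₀ : Set S) ⊆ T := by
      intro x hx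
      have h1 : o x ∈ P := by simpa [F₀] using hx
      obtain ⟨x', hx', h2⟩ := hPT _ h1
      rw [← ho h2]
      exact hx'
    have hF₀c : F₀.card ≤ i + 1 := by
      refine le_trans ?_ hPc
      rw [← Finset.card_image_of_injective F₀ ho]
      refine Finset.card_le_card ?_
      intro p hp
      obtain ⟨x, hx, rfl⟩ := Finset.mem_image.mp hp
      simpa [F₀] using hx
    have hy₀F : y₀ ∉ F₀ := by
      intro h1
      exact hyP (by simpa [F₀] using h1)
    obtain ⟨X, hXc, hFX, hXT, hyX⟩ := exists_extend T hTinf F₀ hF₀T y₀ hy₀F m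
      (hF₀c.trans hm)
    have hPX : P ⊆ X.image o := by
      intro p hp
      obtain ⟨x, hx, rfl⟩ := hPT p hp
      exact Finset.mem_image_of_mem o (hFX (by simpa [F₀] using hp))
    exact Set.disjoint_left.mp (hfree X hXc hXT) hy₀
      ⟨hyX, D_mono h (i + 1) 0 0 _ _ (le_refl _) hPX hmem⟩

end H43.FreeSet
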