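import Mathlib

set_option autoImplicit false

open Cardinal Ordinal Set

namespace H43.FreeSet

/-- `Z` can be mapped strictly increasingly below `M`. -/
def Sm (M : Ordinal.{0}) (Z : Set Ordinal.{0}) : Prop :=
  ∃ g : Ordinal.{0} → Ordinal.{0}, StrictMonoOn g Z ∧ ∀ z ∈ Z, g z < M

theorem Sm.mono {M M' : Ordinal.{0}} {Z Z' : Set Ordinal.{0}} (h : Sm M Z) (hM : M ≤ M')
    (hZ : Z' ⊆ Z) : Sm M' Z' := by
  obtain ⟨g, h1, h2⟩ := h
  exact ⟨g, h1.mono hZ, fun z hz => (h2 z (hZ hz)).trans_le hM⟩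

theorem Sm.comp {M : Ordinal.{0}} {Z J : Set Ordinal.{0}} (h : Sm M Z) {z : Ordinal.{0} → Ordinal.{0}}
    (hz : StrictMonoOn z J) (hm : ∀ j ∈ J, z j ∈ Z) : Sm M J := by
  obtain ⟨g, h1, h2⟩ := h
  exact ⟨g ∘ z, fun a ha b hb hab => h1 (hm a ha) (hm b hb) (hz ha hb hab),
    fun j hj => h2 _ (hm j hj)⟩

theorem Sm.succ {M : Ordinal.{0}} {T : Set Ordinal.{0}} (h : ∀ w ∈ T, Sm M (T ∩ Iio w)) :
    Sm (M + 1) T := by
  refine ⟨fun w => sInf {N | Sm N (T ∩ Iio w)}, ?_, ?_⟩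
  · intro w hw w' hw' hlt
    have h1 : Sm (sInf {N | Sm N (T ∩ Iio w')}) (T ∩ Iio w') :=
      csInf_mem (s := {N | Sm N (T ∩ Iio w')}) ⟨M, h w' hw'⟩
    obtain ⟨g, h2, h3⟩ := h1
    have h4 : Sm (g w) (T ∩ Iio w) := by
      refine ⟨g, h2.mono (fun x hx => ⟨hx.1, lt_trans (show x < w from hx.2) hlt⟩), ?_⟩
      intro z hz
      exact h2 ⟨hz.1, lt_trans (show z < w from hz.2) hlt⟩ ⟨hw, hlt⟩ hz.2
    exact (csInf_le' (s := {N | Sm N (T ∩ Iio w)}) h4).trans_lt (h3 w ⟨hw, hlt⟩)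
  · intro w hw
    have h1 : sInf {N | Sm N (T ∩ Iio w)} ≤ M := csInf_le' (h w hw)
    exact lt_of_le_of_lt h1 (Order.lt_add_one_iff.mpr (le_refl _))

/-- The sum lemma. -/
theorem Sm.sum {M L : Ordinal.{0}} {Z : Set Ordinal.{0}} {j : Ordinal.{0} → Ordinal.{0}}
    (hj : MonotoneOn j Z) (hL : Sm L (j '' Z)) (hM : ∀ v ∈ j '' Z, Sm M {z | z ∈ Z ∧ j z = v}) :
    Sm (M * L) Z := by
  classical
  obtain ⟨h, h1, h2⟩ := hL
  have hM' : ∀ v, ∃ g : Ordinal.{0} → Ordinal.{0}, v ∈ j '' Z →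
      StrictMonoOn g {z | z ∈ Z ∧ j z = v} ∧ ∀ z ∈ Z, j z = v → g z < M := by
    intro v
    by_cases hv : v ∈ j '' Z
    · obtain ⟨g, h3, h4⟩ := hM v hv
      exact ⟨g, fun _ => ⟨h3, fun z hz hz' => h4 z ⟨hz, hz'⟩⟩⟩
    · exact ⟨id, fun h => absurd h hv⟩
  choose g hg using hM'
  have key : ∀ z ∈ Z, g (j z) z < M := fun z hz => (hg (j z) ⟨z, hz, rfl⟩).2 z hz rfl
  refine ⟨fun z => M * h (j z) + g (j z) z, ?_, ?_⟩
  · intro z hz z' hz' hlt
    have h3 := hj hz hz' hlt.le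
    rcases h3.lt_or_eq with h3 | h3
    · have h4 : h (j z) < h (j z') := h1 ⟨z, hz, rfl⟩ ⟨z', hz', rfl⟩ h3
      calc M * h (j z) + g (j z) z < M * h (j z) + M := by
            exact (add_lt_add_iff_left _).mpr (key z hz)
        _ = M * (h (j z) + 1) := by rw [mul_add, mul_one]
        _ ≤ M * h (j z') := by
            exact mul_le_mul_right (Order.add_one_le_of_lt h4) M
        _ ≤ M * h (j z') + g (j z') z' := le_self_add
    · have h4 : g (j z) z < g (j z') z' := by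
        rw [← h3]
        exact (hg (j z) ⟨z, hz, rfl⟩).1 ⟨hz, rfl⟩ ⟨hz', h3.symm⟩ hlt
      show M * h (j z) + g (j z) z < M * h (j z') + g (j z') z'
      rw [← h3] at h4 ⊢
      exact (add_lt_add_iff_left _).mpr h4
  · intro z hz
    calc M * h (j z) + g (j z) z < M * h (j z) + M := by
          exact (add_lt_add_iff_left _).mpr (key z hz)
      _ = M * (h (j z) + 1) := by rw [mul_add, mul_one]
      _ ≤ M * L := by
          exact mul_le_mul_right (Order.add_one_le_of_lt (h2 _ ⟨z, hz, rfl⟩)) M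

/-- Adding one point on top. -/
theorem Sm.top {M : Ordinal.{0}} {Z : Set Ordinal.{0}} {t : Ordinal.{0}}
    (h : Sm M {z | z ∈ Z ∧ z ≠ t}) (ht : ∀ z ∈ Z, z ≤ t) : Sm (M + 1) Z := by
  classical
  obtain ⟨g, h1, h2⟩ := h
  refine ⟨fun z => if z = t then M else g z, ?_, ?_⟩
  · intro z hz z' hz' hlt
    have h3 : z ≠ t := (lt_of_lt_of_le hlt (ht z' hz')).ne
    simp only [if_neg h3]
    by_cases h4 : z' = t
    · rw [if_pos h4]
      exact h2 z ⟨hz, h3⟩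
    · rw [if_neg h4]
      exact h1 ⟨hz, h3⟩ ⟨hz', h4⟩ hlt
  · intro z hz
    by_cases h4 : z = t
    · simp only [if_pos h4]
      exact Order.lt_add_one_iff.mpr (le_refl _)
    · simp only [if_neg h4]
      exact (h2 z ⟨hz, h4⟩).trans (Order.lt_add_one_iff.mpr (le_refl _))

/-- A set of size `κ⁺⁺` has a large initial segment. -/
theorem exists_large {κ : Cardinal.{0}} (hκ : ℵ₀ ≤ κ) {M : Ordinal.{0}} (hM : M.card ≤ Order.succ κ)
    {T : Set Ordinal.{0}} (hT : Cardinal.lift.{1} (Order.succ (Order.succ κ)) ≤ #T) :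
    ∃ w ∈ T, ¬ Sm M (T ∩ Iio w) := by
  by_contra hcon
  push Not at hcon
  obtain ⟨g, h1, h2⟩ := Sm.succ hcon
  have h3 : #T ≤ #(Iio (M + 1)) := by
    refine Cardinal.mk_le_of_injective (f := fun t : T => (⟨g t.1, h2 _ t.2⟩ : Iio (M + 1))) ?_
    intro x y hxy
    exact Subtype.ext (h1.injOn x.2 y.2 (congrArg Subtype.val hxy))
  rw [Cardinal.mk_Iio_ordinal] at h3
  have h4 : (M + 1).card ≤ Order.succ κ := by
    rw [Ordinal.card_add, Ordinal.card_one]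
    exact (add_le_add hM (one_le_aleph0.trans (hκ.trans (Order.le_succ κ)))).trans
      (Cardinal.add_eq_self (hκ.trans (Order.le_succ κ))).le
  have h5 := hT.trans (h3.trans (Cardinal.lift_le.mpr h4))
  rw [Cardinal.lift_le] at h5
  exact absurd (Order.lt_succ (Order.succ κ)) (not_lt.mpr h5)

end H43.FreeSet
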