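import Pool.Agent.H43.FreeSet.Decode
import Pool.Agent.H43.FreeSet.Sm

set_option autoImplicit false

open Cardinal Ordinal Set

namespace H43.FreeSet

theorem mem_walk_lt (e : Ordinal.{0} → Ordinal.{0} → Ordinal.{0}) (a : Ordinal.{0}) :
    ∀ b g, g ∈ walk e b a → a < g ∧ g ≤ b := by
  intro b
  induction b using WellFoundedLT.induction with
  | ind b ih =>
    intro g hg
    by_cases h : a < b
    · rw [walk_of_lt e h] at hg
      rcases List.mem_cons.mp hg with rfl | hg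
      · exact ⟨h, le_refl _⟩
      · obtain ⟨h1, h2⟩ := ih _ (nxt_spec e h).2.1 g hg
        exact ⟨h1, h2.trans (nxt_spec e h).2.1.le⟩
    · rw [walk_of_not_lt e h] at hg
      simp at hg

theorem length_nxt (e : Ordinal.{0} → Ordinal.{0} → Ordinal.{0}) {g a : Ordinal.{0}}
    (h : a < g) : (walk e g a).length = (walk e (nxt e g a) a).length + 1 := by
  rw [walk_of_lt e h, List.length_cons]

/-- A fibre with `φ ≤ g'` whose part with `φ < g'` is small. -/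
theorem Sm.top' {M g' : Ordinal.{0}} {Z : Set Ordinal.{0}} {φ : Ordinal.{0} → Ordinal.{0}}
    (hφ : StrictMonoOn φ Z) (hle : ∀ z ∈ Z, φ z ≤ g') (h : Sm M {z | z ∈ Z ∧ φ z < g'}) :
    Sm (M + 1) Z := by
  classical
  obtain ⟨g, h1, h2⟩ := h
  refine ⟨fun z => if φ z < g' then g z else M, ?_, ?_⟩
  · intro z hz z' hz' hlt
    have h3 : φ z < g' := (hφ hz hz' hlt).trans_le (hle z' hz')
    simp only [if_pos h3]
    by_cases h4 : φ z' < g'
    · rw [if_pos h4]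
      exact h1 ⟨hz, h3⟩ ⟨hz', h4⟩ hlt
    · rw [if_neg h4]
      exact h2 z ⟨hz, h3⟩
  · intro z hz
    by_cases h4 : φ z < g'
    · simp only [if_pos h4]
      exact (h2 z ⟨hz, h4⟩).trans (Order.lt_add_one_iff.mpr (le_refl _))
    · simp only [if_neg h4]
      exact Order.lt_add_one_iff.mpr (le_refl _)

/-- `Z₀` sits at the node `g` of the walks `b → φ z`. -/
def Node (e : Ordinal.{0} → Ordinal.{0} → Ordinal.{0}) (b : Ordinal.{0})
    (φ : Ordinal.{0} → Ordinal.{0}) (g : Ordinal.{0}) (Z₀ : Set Ordinal.{0}) : Prop :=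
  ∀ z ∈ Z₀, g ∈ walk e b (φ z)

section Tree

variable {e : Ordinal.{0} → Ordinal.{0} → Ordinal.{0}} {b : Ordinal.{0}}
  {φ : Ordinal.{0} → Ordinal.{0}} {L' : Ordinal.{0}}

theorem pow_step (X L' : Ordinal.{0}) (hX : 1 ≤ X) : (X + 1) * L' ≤ X * (2 * L') := by
  have h1 : X + 1 ≤ X * 2 := by
    have h2 : (2 : Ordinal.{0}) = 1 + 1 := by norm_num
    rw [h2, mul_add, mul_one]
    exact (add_le_add_iff_left X).mpr hX
  rw [← mul_assoc]
  exact mul_le_mul_left h1 L'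

/-- Going down one level from a node. -/
theorem node_step (he : ∀ g, InjOn (e g) (Iio g)) {X g : Ordinal.{0}} {Z₀ : Set Ordinal.{0}}
    (hφ : StrictMonoOn φ Z₀) (hnode : Node e b φ g Z₀) (hX : 1 ≤ X)
    (hsh : Sm L' ((fun z => idx e g (φ z)) '' Z₀))
    (hfib : ∀ z₀ ∈ Z₀,
      Sm X {z | z ∈ Z₀ ∧ idx e g (φ z) = idx e g (φ z₀) ∧ φ z < nxt e g (φ z₀)}) :
    Sm (X * (2 * L')) Z₀ := by
  have hlt : ∀ z ∈ Z₀, φ z < g := fun z hz => (mem_walk_lt e _ _ _ (hnode z hz)).1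
  have hmono : MonotoneOn (fun z => idx e g (φ z)) Z₀ := by
    intro z hz z' hz' hzz
    exact idx_mono e (hφ.monotoneOn hz hz' hzz) (hlt z' hz')
  refine (Sm.sum hmono hsh ?_).mono (pow_step X L' hX) (subset_refl _)
  rintro v ⟨z₀, hz₀, rfl⟩
  refine Sm.top' (φ := φ) (g' := nxt e g (φ z₀)) (hφ.mono (fun z hz => hz.1)) ?_ ?_
  · rintro z ⟨hz, hzi⟩
    rw [← nxt_eq (he g) (hlt z hz) (hlt z₀ hz₀) hzi]
    exact (nxt_spec e (hlt z hz)).1
  · refine (hfib z₀ hz₀).mono (le_refl _) ?_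
    rintro z ⟨⟨hz, hzi⟩, hz3⟩
    exact ⟨hz, hzi, hz3⟩

theorem fibre_node (he : ∀ g, InjOn (e g) (Iio g)) {g : Ordinal.{0}} {Z₀ : Set Ordinal.{0}}
    (hnode : Node e b φ g Z₀) {z₀ : Ordinal.{0}} (hz₀ : z₀ ∈ Z₀) :
    Node e b φ (nxt e g (φ z₀))
      {z | z ∈ Z₀ ∧ idx e g (φ z) = idx e g (φ z₀) ∧ φ z < nxt e g (φ z₀)} := by
  rintro z ⟨hz, hzi, hz3⟩
  have hlt : ∀ z ∈ Z₀, φ z < g := fun z hz => (mem_walk_lt e _ _ _ (hnode z hz)).1
  have h1 := nxt_eq (he g) (hlt z hz) (hlt z₀ hz₀) hzi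
  rw [← h1] at hz3 ⊢
  exact mem_walk_nxt e _ _ _ (hnode z hz) hz3

/-- Nodes with a bounded number of further steps. -/
theorem bounded_small (he : ∀ g, InjOn (e g) (Iio g)) {Z : Set Ordinal.{0}}
    (hφ : StrictMonoOn φ Z) (hL' : 1 ≤ L')
    (hsh : ∀ g Z₀, Z₀ ⊆ Z → Node e b φ g Z₀ → Sm L' ((fun z => idx e g (φ z)) '' Z₀)) :
    ∀ (r : ℕ) (g : Ordinal.{0}) (Z₀ : Set Ordinal.{0}), Z₀ ⊆ Z → Node e b φ g Z₀ →
      (∀ z ∈ Z₀, (walk e g (φ z)).length ≤ r) → Sm ((2 * L') ^ r) Z₀ := by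
  have hΛ : 1 ≤ 2 * L' := by
    calc (1 : Ordinal.{0}) = 1 * 1 := (mul_one 1).symm
      _ ≤ 2 * L' := mul_le_mul' (by norm_num) hL'
  intro r
  induction r with
  | zero =>
    intro g Z₀ hZ₀ hnode hR
    refine ⟨id, ?_, ?_⟩
    · intro z hz
      have h1 := hR z hz
      rw [length_nxt e (mem_walk_lt e _ _ _ (hnode z hz)).1] at h1
      omega
    · intro z hz
      have h1 := hR z hz
      rw [length_nxt e (mem_walk_lt e _ _ _ (hnode z hz)).1] at h1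
      omega
  | succ r ih =>
    intro g Z₀ hZ₀ hnode hR
    rw [pow_succ]
    refine node_step he (hφ.mono hZ₀) hnode (one_le_pow_of_one_le' hΛ r) (hsh g Z₀ hZ₀ hnode) ?_
    intro z₀ hz₀
    refine ih (nxt e g (φ z₀)) _ (fun z hz => hZ₀ hz.1) (fibre_node he hnode hz₀) ?_
    rintro z ⟨hz, hzi, hz3⟩
    have hlt : ∀ z ∈ Z₀, φ z < g := fun z hz => (mem_walk_lt e _ _ _ (hnode z hz)).1
    have h1 := nxt_eq (he g) (hlt z hz) (hlt z₀ hz₀) hzi
    have h2 := hR z hz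
    rw [length_nxt e (hlt z hz), h1] at h2
    omega

/-- If no node is shallow-large or forks, the whole set is small. -/
theorem tree_small {κ : Cardinal.{0}} (hκ : ℵ₀ ≤ κ) (he : ∀ g, InjOn (e g) (Iio g))
    {Z : Set Ordinal.{0}} (hφ : StrictMonoOn φ Z) (hL' : 1 ≤ L')
    (hsh : ∀ g Z₀, Z₀ ⊆ Z → Node e b φ g Z₀ → Sm L' ((fun z => idx e g (φ z)) '' Z₀))
    (hfork : ∀ g Z₀, Z₀ ⊆ Z → Node e b φ g Z₀ →
      #{j | ∀ r : ℕ, ∃ z ∈ Z₀, idx e g (φ z) = j ∧ r ≤ (walk e g (φ z)).length} <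
        Cardinal.lift.{1} (Order.succ κ)) :
    ∀ (g : Ordinal.{0}) (Z₀ : Set Ordinal.{0}), Z₀ ⊆ Z → Node e b φ g Z₀ →
      ∃ t < (Order.succ κ).ord, Sm ((2 * L') ^ t) Z₀ := by
  classical
  have hΛ : 1 ≤ 2 * L' := by
    calc (1 : Ordinal.{0}) = 1 * 1 := (mul_one 1).symm
      _ ≤ 2 * L' := mul_le_mul' (by norm_num) hL'
  have hΛ0 : 0 < 2 * L' := lt_of_lt_of_le zero_lt_one hΛ
  have hκ1 : ℵ₀ ≤ Order.succ κ := hκ.trans (Order.le_succ κ)
  have hlim := Cardinal.isSuccLimit_ord hκ1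
  intro g
  induction g using WellFoundedLT.induction with
  | ind g ih =>
    intro Z₀ hZ₀ hnode
    have hlt : ∀ z ∈ Z₀, φ z < g := fun z hz => (mem_walk_lt e _ _ _ (hnode z hz)).1
    -- heights of the fibres
    have hT : ∀ v : Ordinal.{0}, ∃ t < (Order.succ κ).ord, ∀ z₀ ∈ Z₀, idx e g (φ z₀) = v →
        Sm ((2 * L') ^ t)
          {z | z ∈ Z₀ ∧ idx e g (φ z) = idx e g (φ z₀) ∧ φ z < nxt e g (φ z₀)} := by
      intro v
      by_cases hv : ∃ z₀ ∈ Z₀, idx e g (φ z₀) = v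
      · obtain ⟨z₀, hz₀, hzv⟩ := hv
        obtain ⟨t, ht, ht2⟩ := ih (nxt e g (φ z₀)) (nxt_spec e (hlt z₀ hz₀)).2.1 _
          (fun z (hz : z ∈ Z₀ ∧ idx e g (φ z) = idx e g (φ z₀) ∧ φ z < nxt e g (φ z₀)) =>
            hZ₀ hz.1) (fibre_node he hnode hz₀)
        refine ⟨t, ht, ?_⟩
        intro z₁ hz₁ hz₁v
        have h1 : idx e g (φ z₁) = idx e g (φ z₀) := by rw [hzv, hz₁v]
        have h2 := nxt_eq (he g) (hlt z₁ hz₁) (hlt z₀ hz₀) h1
        rw [h1, h2]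
        exact ht2
      · refine ⟨0, hlim.bot_lt, ?_⟩
        intro z₀ hz₀ hzv
        exact absurd ⟨z₀, hz₀, hzv⟩ hv
    choose tf htf htf2 using hT
    set J₀ : Set Ordinal.{0} :=
      {j | ∀ r : ℕ, ∃ z ∈ Z₀, idx e g (φ z) = j ∧ r ≤ (walk e g (φ z)).length} with hJ₀
    have hsup : sSup (tf '' J₀) < (Order.succ κ).ord := by
      refine Ordinal.sSup_lt_of_lt_cof ?_ ?_
      · rw [← Ordinal.lift_cof, (Cardinal.isRegular_succ hκ).cof_ord]
        exact Cardinal.mk_image_le.trans_lt (hfork g Z₀ hZ₀ hnode)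
      · rintro _ ⟨v, _, rfl⟩
        exact htf v
    have hbdd : BddAbove (tf '' J₀) := by
      refine ⟨(Order.succ κ).ord, ?_⟩
      rintro _ ⟨v, _, rfl⟩
      exact (htf v).le
    have hω : ω < (Order.succ κ).ord := by
      rw [← Cardinal.ord_aleph0]
      exact Cardinal.ord_lt_ord.mpr (hκ.trans_lt (Order.lt_succ κ))
    refine ⟨max (sSup (tf '' J₀)) ω + 1, hlim.add_one_lt (max_lt hsup hω), ?_⟩
    rw [Ordinal.opow_add, Ordinal.opow_one]
    refine node_step he (hφ.mono hZ₀) hnode ?_ (hsh g Z₀ hZ₀ hnode) ?_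
    · exact Order.one_le_iff_pos.mpr (Ordinal.opow_pos _ hΛ0)
    · intro z₀ hz₀
      by_cases hJ : idx e g (φ z₀) ∈ J₀
      · refine (htf2 _ z₀ hz₀ rfl).mono ?_ (subset_refl _)
        exact Ordinal.opow_le_opow_right hΛ0
          ((le_csSup hbdd ⟨_, hJ, rfl⟩).trans (le_max_left _ _))
      · rw [hJ₀, Set.mem_ofPred_eq] at hJ
        push Not at hJ
        obtain ⟨r, hr⟩ := hJ
        have h1 := bounded_small he hφ hL' hsh r (nxt e g (φ z₀))
          {z | z ∈ Z₀ ∧ idx e g (φ z) = idx e g (φ z₀) ∧ φ z < nxt e g (φ z₀)}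
          (fun z hz => hZ₀ hz.1) (fibre_node he hnode hz₀) (by
            rintro z ⟨hz, hzi, hz3⟩
            have h1 := nxt_eq (he g) (hlt z hz) (hlt z₀ hz₀) hzi
            have h2 := hr z hz hzi
            rw [length_nxt e (hlt z hz), h1] at h2
            omega)
        refine h1.mono ?_ (subset_refl _)
        rw [← Ordinal.opow_natCast]
        exact Ordinal.opow_le_opow_right hΛ0
          ((Ordinal.natCast_lt_omega0 r).le.trans (le_max_right _ _))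

end Tree

end H43.FreeSet
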