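import Pool.Agent.H43.FreeSet.Three

set_option autoImplicit false

open Cardinal Ordinal Set

universe u

namespace H43.FreeSet

/-- For each pair `β, γ` one unary function killing the few sets coded by small codes. -/
theorem exists_pair_killer {S L : Type u} [LinearOrder S] [LinearOrder L] {μ : Cardinal.{u}}
    (hμ : ℵ₀ ≤ μ) (hL : ∀ x : L, #(Iic x) ≤ μ) (e : S → L) (E : S → L → Set S) (γ : S)
    (he : InjOn e (Iio γ)) (β : S) :
    ∃ g : S → S, ∀ a η, a < γ → e a ≤ e β → η ≤ e β → μ ≤ #(E a η) →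
      ∃ α ∈ E a η, α ≠ β ∧ α ≠ γ ∧ g α ∈ E a η ∧ g α ≠ β ∧ g α ≠ γ ∧ g α ≠ α := by
  classical
  let I : Type u := {p : S × L // p.1 < γ ∧ e p.1 ≤ e β ∧ p.2 ≤ e β ∧ μ ≤ #(E p.1 p.2)}
  have hI : #I ≤ μ := by
    have h1 : #I ≤ #(Iic (e β) × Iic (e β)) := by
      refine Cardinal.mk_le_of_injective
        (f := fun p : I => ((⟨e p.1.1, p.2.2.1⟩, ⟨p.1.2, p.2.2.2.1⟩) : Iic (e β) × Iic (e β))) ?_
      rintro ⟨⟨a, η⟩, h⟩ ⟨⟨a', η'⟩, h'⟩ hab
      rw [Prod.mk.injEq] at hab
      have h2 : a = a' := he h.1 h'.1 (congrArg Subtype.val hab.1)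
      have h3 : η = η' := congrArg Subtype.val hab.2
      subst h2 h3
      rfl
    refine h1.trans ?_
    calc #(Iic (e β) × Iic (e β)) = #(Iic (e β)) * #(Iic (e β)) := (Cardinal.mul_def _ _).symm
      _ ≤ μ * μ := mul_le_mul' (hL _) (hL _)
      _ = μ := Cardinal.mul_eq_self hμ
  obtain ⟨g, hg⟩ := exists_killer hμ hI (fun i : I => E i.1.1 i.1.2) (fun i => i.2.2.2.2)
    {β, γ} (by simp)
  refine ⟨g, ?_⟩
  intro a η ha h1 h2 h3
  obtain ⟨α, h4, h5, h6, h7, h8⟩ := hg ⟨⟨a, η⟩, ha, h1, h2, h3⟩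
  simp only [Set.mem_insert_iff, Set.mem_singleton_iff, not_or] at h5 h7
  exact ⟨α, h4, h5.1, h5.2, h6, h7.1, h7.2, h8⟩

theorem core {S : Type u} [LinearOrder S] [WellFoundedLT S] {μ : Cardinal.{u}} (hμ : ℵ₀ ≤ μ)
    (h2 : 2 ^ μ = Order.succ μ) (hS : ∀ x : S, #(Iio x) ≤ Order.succ μ) :
    ∃ f : Finset S → Set S, (∀ X, (f X).Finite ∧ Disjoint (X : Set S) (f X)) ∧
      ∀ n, 3 ≤ n → ∀ T : Set S,
        (∀ X : Finset S, X.card = n → (X : Set S) ⊆ T → Disjoint T (f X)) →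
        #T < Order.succ μ := by
  classical
  have hLc : #(Order.succ μ).ord.ToType = Order.succ μ := mk_ord_toType _
  have hL0 : Nonempty (Order.succ μ).ord.ToType := by
    rw [← Cardinal.mk_ne_zero_iff, hLc]
    exact (lt_of_lt_of_le Cardinal.aleph0_pos (hμ.trans (Order.le_succ μ))).ne'
  -- injections
  have he0 : ∀ γ : S, ∃ e : S → (Order.succ μ).ord.ToType, InjOn e (Iio γ) := fun γ =>
    exists_inj_on (Iio γ) (by rw [hLc]; exact hS γ) hL0
  choose e he using he0
  -- enumerations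
  have hE0 : ∀ a : S, ∃ E : (Order.succ μ).ord.ToType → Set S,
      ∀ A : Set S, A ⊆ Iio a → #A = μ → ∃ η, E η = A := fun a =>
    exists_enum hμ h2 hLc (Iio a) (hS a)
  choose E hE using hE0
  -- killers
  have hg0 : ∀ γ β : S, ∃ g : S → S, ∀ a η, a < γ → e γ a ≤ e γ β → η ≤ e γ β → μ ≤ #(E a η) →
      ∃ α ∈ E a η, α ≠ β ∧ α ≠ γ ∧ g α ∈ E a η ∧ g α ≠ β ∧ g α ≠ γ ∧ g α ≠ α := fun γ β =>
    exists_pair_killer hμ (mk_Iic_le hμ) (e γ) E γ (he γ) β
  choose g hg using hg0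
  let f : Finset S → Set S := fun X => {δ | δ ∉ X ∧ ∃ α ∈ X, ∃ β ∈ X, ∃ γ ∈ X,
    (β < γ ∧ α ≠ β ∧ α ≠ γ ∧ g γ β α = δ) ∨ (δ < α ∧ α < β ∧ β < γ ∧ e α δ = e γ β)}
  refine ⟨f, ?_, ?_⟩
  · intro X
    constructor
    · have hsub : f X ⊆ ⋃ α ∈ (X : Set S), ⋃ β ∈ (X : Set S), ⋃ γ ∈ (X : Set S),
          ({g γ β α} ∪ {δ | δ < α ∧ e α δ = e γ β}) := by
        rintro δ ⟨-, α, hα, β, hβ, γ, hγ, h⟩
        simp only [Set.mem_iUnion]
        refine ⟨α, hα, β, hβ, γ, hγ, ?_⟩
        rcases h with h | h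
        · exact Or.inl h.2.2.2.symm
        · exact Or.inr ⟨h.1, h.2.2.2⟩
      refine Set.Finite.subset ?_ hsub
      refine X.finite_toSet.biUnion (fun α _ => X.finite_toSet.biUnion
        (fun β _ => X.finite_toSet.biUnion (fun γ _ => ?_)))
      refine (Set.finite_singleton _).union (Set.Subsingleton.finite ?_)
      intro x hx y hy
      exact he α hx.1 hy.1 (hx.2.trans hy.2.symm)
    · rw [Set.disjoint_left]
      intro x hx hx'
      exact hx'.1 hx
  · intro n hn T hfree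
    by_contra hT0
    have hT : Order.succ μ ≤ #T := not_lt.mp hT0
    have hTinf : T.Infinite := by
      rw [← Set.infinite_coe_iff, Cardinal.infinite_iff]
      exact hμ.trans ((Order.le_succ μ).trans hT)
    -- basic contradiction principle
    have key : ∀ (F : Finset S) (δ : S), (F : Set S) ⊆ T → F.card ≤ 3 → δ ∈ T → δ ∉ F →
        (∃ α ∈ F, ∃ β ∈ F, ∃ γ ∈ F,
          (β < γ ∧ α ≠ β ∧ α ≠ γ ∧ g γ β α = δ) ∨ (δ < α ∧ α < β ∧ β < γ ∧ e α δ = e γ β)) →
        False := by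
      rintro F δ hF hc hδ hδF ⟨α, hα, β, hβ, γ, hγ, h⟩
      obtain ⟨X, hX, hFX, hXT, hδX⟩ := exists_extend T hTinf F hF δ hδF n (hc.trans hn)
      exact Set.disjoint_left.mp (hfree X hX hXT) hδ
        ⟨hδX, α, hFX hα, β, hFX hβ, γ, hFX hγ, h⟩
    obtain ⟨φ, hφ, hφT⟩ := exists_copy T hT
    obtain ⟨B, hB⟩ := Cardinal.le_mk_iff_exists_subset (s := (Set.univ : Set (Order.succ μ).ord.ToType))
      (c := μ) |>.mp (by rw [Cardinal.mk_univ, hLc]; exact Order.le_succ μ)
    obtain ⟨a, ha⟩ := exists_bound hμ B hB.2.le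
    have hA : #(φ '' B) = μ := by rw [Cardinal.mk_image_eq hφ.injective, hB.2]
    have hAsub : φ '' B ⊆ Iio (φ a) := by
      rintro _ ⟨b, hb, rfl⟩
      exact hφ (ha b hb)
    have hAT : φ '' B ⊆ T := by
      rintro _ ⟨b, hb, rfl⟩
      exact hφT b
    obtain ⟨η, hη⟩ := hE (φ a) (φ '' B) hAsub hA
    -- the killing step
    have kill : ∀ β γ, β ∈ T → γ ∈ T → β < γ → φ a ≤ β → e γ (φ a) ≤ e γ β → η ≤ e γ β → False := by
      intro β γ hβ hγ hβγ haβ h3 h4
      obtain ⟨α, h5, h6, h7, h8, h9, h10, h11⟩ := hg γ β (φ a) η (lt_of_le_of_lt haβ hβγ) h3 h4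
        (by rw [hη, hA])
      rw [hη] at h5 h8
      refine key {α, β, γ} (g γ β α) ?_ (Finset.card_le_three) (hAT h8) ?_
        ⟨α, by simp, β, by simp, γ, by simp, Or.inl ⟨hβγ, h6, h7, rfl⟩⟩
      · intro x hx
        simp only [Finset.coe_insert, Finset.coe_singleton, Set.mem_insert_iff,
          Set.mem_singleton_iff] at hx
        rcases hx with rfl | rfl | rfl
        · exact hAT h5
        · exact hβ
        · exact hγ
      · simp [h9, h10, h11]
    have step1 : ∀ γ ∈ T, φ a < γ → e γ (φ a) < η := by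
      intro γ hγ h
      by_contra h3
      exact kill (φ a) γ (hφT a) hγ h le_rfl le_rfl (not_lt.mp h3)
    have step2 : ∀ β γ, β ∈ T → γ ∈ T → φ a ≤ β → β < γ → e γ β < η := by
      intro β γ hβ hγ h1 h3
      by_contra h4
      rw [not_lt] at h4
      exact kill β γ hβ hγ h3 h1 ((step1 γ hγ (lt_of_le_of_lt h1 h3)).le.trans h4) h4
    -- immediate successors
    have hsucc : ∀ i : (Order.succ μ).ord.ToType, ∃ s, i < s ∧ ∀ x, i < x → s ≤ x := by
      intro i
      have hne : {x | i < x}.Nonempty := by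
        obtain ⟨a', ha'⟩ := exists_bound hμ {i} (by
          rw [Cardinal.mk_singleton]; exact Cardinal.one_le_aleph0.trans hμ)
        exact ⟨a', ha' i rfl⟩
      refine ⟨wellFounded_lt.min {x | i < x} hne, wellFounded_lt.min_mem _ hne, ?_⟩
      intro x hx
      exact not_lt.mp (wellFounded_lt.not_lt_min _ hx)
    choose s hs1 hs2 using hsucc
    -- pigeonhole
    have hdom : #(Ici a) = Order.succ μ := by
      have h3 : #(Iio a) + #(Ici a) = Order.succ μ := by
        have := Cardinal.mk_sum_compl (Iio a)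
        rw [hLc, Set.compl_Iio] at this
        exact this
      have h4 : #(Iio a) < Order.succ μ := Cardinal.mk_Iio_toType_ord_lt a
      by_contra h5
      have h6 : #(Ici a) ≤ Order.succ μ := (Cardinal.mk_set_le _).trans hLc.le
      have h7 : #(Ici a) < Order.succ μ := lt_of_le_of_ne h6 h5
      exact absurd h3 (Cardinal.add_lt_of_lt (hμ.trans (Order.le_succ μ)) h4 h7).ne
    have hcod : #(Iio η) ≤ #(μ.ord.ToType) := by
      rw [mk_ord_toType]
      exact Order.lt_succ_iff.mp (Cardinal.mk_Iio_toType_ord_lt η)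
    obtain ⟨j⟩ := Cardinal.le_def _ _ |>.mp hcod
    let h : Ici a → μ.ord.ToType := fun i =>
      j ⟨e (φ (s i)) (φ i), step2 (φ i) (φ (s i)) (hφT _) (hφT _) (hφ.monotone i.2) (hφ (hs1 _))⟩
    have : Infinite μ.ord.ToType := by
      rw [Cardinal.infinite_iff, mk_ord_toType]; exact hμ
    have : Infinite (Ici a) := by
      rw [Cardinal.infinite_iff, hdom]; exact hμ.trans (Order.le_succ μ)
    obtain ⟨c, hc⟩ := Cardinal.exists_infinite_fiber h
      (by rw [mk_ord_toType, hdom]; exact Order.lt_succ μ)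
    have hne : (h ⁻¹' {c}).Nonempty := Set.nonempty_coe_sort.mp inferInstance
    have hi := wellFounded_lt.min_mem _ hne
    set i := wellFounded_lt.min _ hne with hidef
    have hinf : ((h ⁻¹' {c}) \ {x | x = i ∨ x.1 = s i}).Infinite := by
      refine (Set.infinite_coe_iff.mp hc).sdiff ?_
      have : {x : Ici a | x = i ∨ x.1 = s i} = {i} ∪ {x : Ici a | x.1 = s i} := by
        ext x; simp
      rw [this]
      refine (Set.finite_singleton _).union (Set.Subsingleton.finite ?_)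
      intro x hx y hy
      exact Subtype.ext (hx.trans hy.symm)
    obtain ⟨k, hk1, hk2⟩ := hinf.nonempty
    simp only [Set.mem_setOf_eq, not_or] at hk2
    have hik : i < k := lt_of_le_of_ne (not_lt.mp (wellFounded_lt.not_lt_min _ hk1)) (Ne.symm hk2.1)
    have hsk : s i < k.1 := lt_of_le_of_ne (hs2 _ _ hik) (fun h => hk2.2 h.symm)
    have heq : e (φ (s i)) (φ i) = e (φ (s k)) (φ k) := by
      have h3 : h i = h k := by
        rw [Set.mem_preimage, Set.mem_singleton_iff] at hi hk1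
        rw [hi, hk1]
      have := j.injective h3
      exact congrArg Subtype.val this
    refine key {φ (s i), φ k, φ (s k)} (φ i) ?_ (Finset.card_le_three) (hφT _) ?_
      ⟨φ (s i), by simp, φ k, by simp, φ (s k), by simp,
        Or.inr ⟨hφ (hs1 _), hφ hsk, hφ (hs1 _), heq⟩⟩
    · intro x hx
      simp only [Finset.coe_insert, Finset.coe_singleton, Set.mem_insert_iff,
        Set.mem_singleton_iff] at hx
      rcases hx with rfl | rfl | rfl <;> exact hφT _
    · simp only [Finset.mem_insert, Finset.mem_singleton, not_or]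
      refine ⟨(hφ (hs1 _)).ne, (hφ ?_).ne, (hφ ?_).ne⟩
      · exact hik
      · exact lt_trans (Subtype.coe_lt_coe.mpr hik) (hs1 k.1)

/-- **Main theorem.** -/
theorem main {μ : Cardinal.{u}} (hμ : ℵ₀ ≤ μ) (h2 : 2 ^ μ = Order.succ μ) (S : Type u)
    (hS : #S ≤ Order.succ (Order.succ μ)) :
    ∃ f : Finset S → Set S, (∀ X, (f X).Finite ∧ Disjoint (X : Set S) (f X)) ∧
      ∀ n, 3 ≤ n → ∀ T : Set S,
        (∀ X : Finset S, X.card = n → (X : Set S) ⊆ T → Disjoint T (f X)) →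
        #T < Order.succ μ := by
  classical
  have h1 : #S ≤ #(Order.succ (Order.succ μ)).ord.ToType := by rw [mk_ord_toType]; exact hS
  obtain ⟨j⟩ := Cardinal.le_def _ _ |>.mp h1
  let _ : LinearOrder S := LinearOrder.lift' j j.injective
  have : WellFoundedLT S := ⟨InvImage.wf j wellFounded_lt⟩
  refine core hμ h2 ?_
  intro x
  have h3 : #(Iio x) ≤ #(Iio (j x)) := by
    refine Cardinal.mk_le_of_injective (f := fun y : Iio x => (⟨j y.1, y.2⟩ : Iio (j x))) ?_
    intro a b hab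
    exact Subtype.ext (j.injective (congrArg Subtype.val hab))
  exact Order.lt_succ_iff.mp (lt_of_le_of_lt h3 (Cardinal.mk_Iio_toType_ord_lt _))

end H43.FreeSet
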