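import Pool.Agent.H43.FreeSet.Walk

set_option autoImplicit false

open Cardinal Ordinal Set

namespace H43.FreeSet

/-- The decoding sets. -/
def D (s : ℕ → Ordinal.{0}) (e : ℕ → Ordinal.{0} → Ordinal.{0} → Ordinal.{0}) :
    ℕ → ℕ → Finset Ordinal.{0} → Set Ordinal.{0}
  | 0, K, _ => Iio (s K)
  | i + 1, K, P => {d | ∃ b ∈ P, d < b ∧ e i b d ∈ D s e i (max K (m (e i) P)) (O (e i) P)}

/-- `κ^(+i)` as an ordinal. -/
noncomputable def L (κ : Cardinal.{0}) (i : ℕ) : Ordinal.{0} := (Order.succ^[i] κ).ord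

/-- The data of the construction. -/
structure Sys (κ : Cardinal.{0}) (s : ℕ → Ordinal.{0})
    (e : ℕ → Ordinal.{0} → Ordinal.{0} → Ordinal.{0}) : Prop where
  inj : ∀ i b, InjOn (e i b) (Iio b)
  lt : ∀ i b, b < L κ (i + 1) → ∀ a < b, e i b a < L κ i
  smono : Monotone s
  slt : ∀ r, s r < κ.ord
  scof : ∀ x < κ.ord, ∃ r, x < s r

variable {κ : Cardinal.{0}} {s : ℕ → Ordinal.{0}}
  {e : ℕ → Ordinal.{0} → Ordinal.{0} → Ordinal.{0}}

theorem mem_D_succ {i K : ℕ} {P : Finset Ordinal.{0}} {d : Ordinal.{0}} :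
    d ∈ D s e (i + 1) K P ↔
      ∃ b ∈ P, d < b ∧ e i b d ∈ D s e i (max K (m (e i) P)) (O (e i) P) := Iff.rfl

theorem D_mono (h : Sys κ s e) : ∀ (i K K' : ℕ) (P P' : Finset Ordinal.{0}), K ≤ K' → P ⊆ P' →
    D s e i K P ⊆ D s e i K' P' := by
  intro i
  induction i with
  | zero =>
    intro K K' P P' hK hP
    exact Iio_subset_Iio (h.smono hK)
  | succ i ih =>
    intro K K' P P' hK hP d hd
    obtain ⟨b, hb, h1, h2⟩ := hd
    exact ⟨b, hP hb, h1, ih _ _ _ _ (max_le_max hK (m_mono (e i) hP)) (O_mono (e i) hP) h2⟩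

theorem mk_D_lt (hκ : ℵ₀ ≤ κ) (h : Sys κ s e) : ∀ (i K : ℕ) (P : Finset Ordinal.{0}),
    #(D s e i K P) < Cardinal.lift.{1} κ := by
  intro i
  induction i with
  | zero =>
    intro K P
    show #(Iio (s K)) < _
    rw [Cardinal.mk_Iio_ordinal, Cardinal.lift_lt]
    exact Cardinal.lt_ord.mp (h.slt K)
  | succ i ih =>
    intro K P
    have hκ' : ℵ₀ ≤ Cardinal.lift.{1} κ := by simpa using hκ
    have h1 : ∀ b, #{d | d < b ∧ e i b d ∈ D s e i (max K (m (e i) P)) (O (e i) P)} <
        Cardinal.lift.{1} κ := by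
      intro b
      refine lt_of_le_of_lt ?_ (ih (max K (m (e i) P)) (O (e i) P))
      refine Cardinal.mk_le_of_injective
        (f := fun d : {d | d < b ∧ e i b d ∈ D s e i (max K (m (e i) P)) (O (e i) P)} =>
          (⟨e i b d.1, d.2.2⟩ : D s e i (max K (m (e i) P)) (O (e i) P))) ?_
      intro x y hxy
      exact Subtype.ext (h.inj i b x.2.1 y.2.1 (congrArg Subtype.val hxy))
    have h2 : ∀ Q : Finset Ordinal.{0},
        #{d | ∃ b ∈ Q, d < b ∧ e i b d ∈ D s e i (max K (m (e i) P)) (O (e i) P)} <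
        Cardinal.lift.{1} κ := by
      intro Q
      classical
      induction Q using Finset.induction_on with
      | empty =>
        have : {d | ∃ b ∈ (∅ : Finset Ordinal.{0}), d < b ∧
            e i b d ∈ D s e i (max K (m (e i) P)) (O (e i) P)} = ∅ := by
          ext d; simp
        rw [this, Cardinal.mk_eq_zero]
        exact Cardinal.aleph0_pos.trans_le hκ'
      | insert c Q hc ihQ =>
        have : {d | ∃ b ∈ insert c Q, d < b ∧
            e i b d ∈ D s e i (max K (m (e i) P)) (O (e i) P)} =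
            {d | d < c ∧ e i c d ∈ D s e i (max K (m (e i) P)) (O (e i) P)} ∪
            {d | ∃ b ∈ Q, d < b ∧ e i b d ∈ D s e i (max K (m (e i) P)) (O (e i) P)} := by
          ext d
          simp only [Finset.mem_insert, Set.mem_ofPred_eq, Set.mem_union]
          constructor
          · rintro ⟨b, rfl | hb, h3⟩
            · exact Or.inl h3
            · exact Or.inr ⟨b, hb, h3⟩
          · rintro (h3 | ⟨b, hb, h3⟩)
            · exact ⟨c, Or.inl rfl, h3⟩
            · exact ⟨b, Or.inr hb, h3⟩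
        rw [this]
        exact (Cardinal.mk_union_le _ _).trans_lt (Cardinal.add_lt_of_lt hκ' (h1 c) ihQ)
    exact h2 P

/-- Main step for going one level up. -/
theorem D_step (h : Sys κ s e) {i K K' : ℕ} {P Q : Finset Ordinal.{0}} {b d : Ordinal.{0}}
    (hb : b ∈ P) (hd : d < b) (hK : K' ≤ max K (m (e i) P)) (hQ : Q ⊆ O (e i) P)
    (hmem : e i b d ∈ D s e i K' Q) : d ∈ D s e (i + 1) K P :=
  ⟨b, hb, hd, D_mono h i _ _ _ _ hK hQ hmem⟩

open Classical in
/-- Lemma K (Kuratowski) with base `b`. -/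
theorem lemmaK (h : Sys κ s e) : ∀ (i : ℕ) (b : Ordinal.{0}) (A : Finset Ordinal.{0})
    (c : Ordinal.{0} → Ordinal.{0}), b < L κ (i + 1) → i + 1 ≤ A.card → InjOn c A →
    (∀ a ∈ A, c a < b) →
    ∃ E ⊆ A, E.card ≤ i ∧ ∃ y ∈ A, y ∉ E ∧ ∃ r, c y ∈ D s e (i + 1) r (insert b (E.image c)) := by
  intro i
  induction i with
  | zero =>
    intro b A c hb hA hc hcb
    obtain ⟨y, hy⟩ := Finset.card_pos.mp (lt_of_lt_of_le Nat.zero_lt_one hA)
    have h1 : e 0 b (c y) < L κ 0 := h.lt 0 b hb _ (hcb y hy)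
    obtain ⟨r, hr⟩ := h.scof _ h1
    refine ⟨∅, by simp, by simp, y, hy, by simp, r, ?_⟩
    refine ⟨b, by simp, hcb y hy, ?_⟩
    exact lt_of_lt_of_le hr (h.smono (le_max_left _ _))
  | succ i ih =>
    intro b A c hb hA hc hcb
    have hAne : A.Nonempty := Finset.card_pos.mp (by omega)
    obtain ⟨u, hu, hmax⟩ := Finset.exists_max_image A (fun a => e (i + 1) b (c a)) hAne
    have hinj : InjOn (fun a => e (i + 1) b (c a)) A := fun x hx y hy hxy =>
      hc hx hy (h.inj (i + 1) b (hcb x hx) (hcb y hy) hxy)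
    have h1 : e (i + 1) b (c u) < L κ (i + 1) := h.lt (i + 1) b hb _ (hcb u hu)
    have h2 : ∀ a ∈ A.erase u, e (i + 1) b (c a) < e (i + 1) b (c u) := by
      intro a ha
      refine lt_of_le_of_ne (hmax a (Finset.mem_of_mem_erase ha)) ?_
      intro h3
      exact Finset.ne_of_mem_erase ha (hinj (Finset.mem_of_mem_erase ha) hu h3)
    obtain ⟨E, hE, hEc, y, hy, hyE, r, hr⟩ := ih (e (i + 1) b (c u)) (A.erase u)
      (fun a => e (i + 1) b (c a)) h1 (by rw [Finset.card_erase_of_mem hu]; omega)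
      (hinj.mono (by simp)) h2
    have hyA := Finset.mem_of_mem_erase hy
    refine ⟨insert u E, ?_, ?_, y, hyA, ?_, r, ?_⟩
    · exact Finset.insert_subset hu (hE.trans (Finset.erase_subset _ _))
    · exact (Finset.card_insert_le _ _).trans (by omega)
    · rw [Finset.mem_insert, not_or]
      exact ⟨Finset.ne_of_mem_erase hy, hyE⟩
    · refine D_step h (K' := r) (Q := insert (e (i + 1) b (c u))
        (E.image (fun a => e (i + 1) b (c a)))) (b := b) (by simp) (hcb y hyA) (le_max_left _ _)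
        ?_ hr
      intro v hv
      rw [Finset.mem_insert, Finset.mem_image] at hv
      rcases hv with rfl | ⟨a, ha, rfl⟩
      · exact e_mem_O _ (by simp) (by simp) (hcb u hu)
      · exact e_mem_O _ (by simp)
          (Finset.mem_insert_of_mem (Finset.mem_image_of_mem c (Finset.mem_insert_of_mem ha)))
          (hcb a (Finset.mem_of_mem_erase (hE ha)))

theorem card_lt_of_lt_L {i : ℕ} {x : Ordinal.{0}} (hx : x < L κ i) :
    x.card < Order.succ^[i] κ := Cardinal.lt_ord.mp hx

open Classical in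
/-- Lemma D (a big family of possible base points). -/
theorem lemmaD (hκ : ℵ₀ ≤ κ) (h : Sys κ s e) : ∀ (i : ℕ) (A : Finset Ordinal.{0})
    (c : Ordinal.{0} → Ordinal.{0}) (J : Set Ordinal.{0}), i + 1 ≤ A.card → InjOn c A →
    (∀ a ∈ A, c a < L κ (i + 1)) → J ⊆ Iio (L κ (i + 1)) →
    Cardinal.lift.{1} (Order.succ κ) ≤ #J →
    ∃ j ∈ J, ∃ E ⊆ A, E.card ≤ i ∧ ∃ y ∈ A, y ∉ E ∧
      ∃ r, c y ∈ D s e (i + 1) r (insert j (E.image c)) := by
  intro i
  induction i with
  | zero =>
    intro A c J hA hc hcL hJL hJ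
    have hAne : A.Nonempty := Finset.card_pos.mp (by omega)
    obtain ⟨u, hu, hmax⟩ := Finset.exists_max_image A c hAne
    have h1 : ∃ j ∈ J, c u < j := by
      by_contra hcon
      push Not at hcon
      have h2 : J ⊆ Iio (c u + 1) := fun j hj => Order.lt_add_one_iff.mpr (hcon j hj)
      have h3 := hJ.trans (Cardinal.mk_le_mk_of_subset h2)
      rw [Cardinal.mk_Iio_ordinal, Cardinal.lift_le] at h3
      have h4 : c u + 1 < (Order.succ κ).ord :=
        (Cardinal.isSuccLimit_ord (hκ.trans (Order.le_succ κ))).add_one_lt (hcL u hu)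
      exact absurd (Cardinal.lt_ord.mp h4) (not_lt.mpr h3)
    obtain ⟨j, hj, huj⟩ := h1
    obtain ⟨E, hE, hEc, y, hy, hyE, r, hr⟩ := lemmaK h 0 j A c (hJL hj) hA hc
      (fun a ha => (hmax a ha).trans_lt huj)
    exact ⟨j, hj, E, hE, hEc, y, hy, hyE, r, hr⟩
  | succ i ih =>
    intro A c J hA hc hcL hJL hJ
    have hAne : A.Nonempty := Finset.card_pos.mp (by omega)
    obtain ⟨u, hu, hmax⟩ := Finset.exists_max_image A c hAne
    by_cases h1 : ∃ j ∈ J, c u < j
    · obtain ⟨j, hj, huj⟩ := h1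
      obtain ⟨E, hE, hEc, y, hy, hyE, r, hr⟩ := lemmaK h (i + 1) j A c (hJL hj) hA hc
        (fun a ha => (hmax a ha).trans_lt huj)
      exact ⟨j, hj, E, hE, hEc, y, hy, hyE, r, hr⟩
    · push Not at h1
      have hlt : ∀ a ∈ A.erase u, c a < c u := by
        intro a ha
        refine lt_of_le_of_ne (hmax a (Finset.mem_of_mem_erase ha)) ?_
        intro h3
        exact Finset.ne_of_mem_erase ha (hc (Finset.mem_of_mem_erase ha) hu h3)
      have hsub : J \ {c u} ⊆ Iio (c u) := fun j hj => lt_of_le_of_ne (h1 j hj.1) hj.2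
      have hJ1 : Cardinal.lift.{1} (Order.succ κ) ≤ #(J \ {c u} : Set Ordinal.{0}) := by
        by_contra hcon
        rw [not_le] at hcon
        have h2 : J ⊆ (J \ {c u}) ∪ {c u} := fun x hx => by
          by_cases hxu : x = c u
          · exact Or.inr hxu
          · exact Or.inl ⟨hx, hxu⟩
        have h3 := (Cardinal.mk_le_mk_of_subset h2).trans (Cardinal.mk_union_le _ _)
        have hκ' : ℵ₀ ≤ Cardinal.lift.{1} (Order.succ κ) := by
          rw [← Cardinal.lift_aleph0.{1, 0}]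
          exact Cardinal.lift_le.mpr (hκ.trans (Order.le_succ κ))
        rw [Cardinal.mk_singleton] at h3
        exact absurd (Cardinal.add_lt_of_lt hκ' hcon
          (Cardinal.one_lt_aleph0.trans_le hκ')) (not_lt.mpr (hJ.trans h3))
      have hJ2 : Cardinal.lift.{1} (Order.succ κ) ≤ #(e (i + 1) (c u) '' (J \ {c u})) := by
        rw [Cardinal.mk_image_eq_of_injOn _ _ ((h.inj (i + 1) (c u)).mono hsub)]
        exact hJ1
      have hinj : InjOn (fun a => e (i + 1) (c u) (c a)) (A.erase u : Finset Ordinal.{0}) :=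
        fun x hx y hy hxy => hc (Finset.mem_of_mem_erase hx) (Finset.mem_of_mem_erase hy)
          (h.inj (i + 1) (c u) (hlt x hx) (hlt y hy) hxy)
      obtain ⟨j', hj', E, hE, hEc, y, hy, hyE, r, hr⟩ := ih (A.erase u)
        (fun a => e (i + 1) (c u) (c a)) (e (i + 1) (c u) '' (J \ {c u}))
        (by rw [Finset.card_erase_of_mem hu]; omega) hinj
        (fun a ha => h.lt (i + 1) (c u) (hcL u hu) _ (hlt a ha))
        (by
          rintro _ ⟨j, hj, rfl⟩
          exact h.lt (i + 1) (c u) (hcL u hu) _ (hsub hj)) hJ2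
      obtain ⟨j, hj, rfl⟩ := hj'
      have hyA := Finset.mem_of_mem_erase hy
      refine ⟨j, hj.1, insert u E, ?_, ?_, y, hyA, ?_, r, ?_⟩
      · exact Finset.insert_subset hu (hE.trans (Finset.erase_subset _ _))
      · exact (Finset.card_insert_le _ _).trans (by omega)
      · rw [Finset.mem_insert, not_or]
        exact ⟨Finset.ne_of_mem_erase hy, hyE⟩
      · refine D_step h (K' := r) (Q := insert (e (i + 1) (c u) j)
          (E.image (fun a => e (i + 1) (c u) (c a)))) (b := c u) (by simp) (hlt y hy)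
          (le_max_left _ _) ?_ hr
        intro v hv
        rw [Finset.mem_insert, Finset.mem_image] at hv
        rcases hv with rfl | ⟨a, ha, rfl⟩
        · exact e_mem_O _ (by simp) (by simp) (hsub hj)
        · exact e_mem_O _ (by simp)
            (Finset.mem_insert_of_mem (Finset.mem_image_of_mem c (Finset.mem_insert_of_mem ha)))
            (hlt a (hE ha))

end H43.FreeSet
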