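import Pool.Agent.H43.FreeSet.Claim

set_option autoImplicit false

open Cardinal Ordinal Set

namespace H43.FreeSet

open Classical in
/-- The claim at level `i + 1`. -/
def ClaimAt (κ : Cardinal.{0}) (s : ℕ → Ordinal.{0})
    (e : ℕ → Ordinal.{0} → Ordinal.{0} → Ordinal.{0}) (i : ℕ) (M : Ordinal.{0}) : Prop :=
  ∀ (b : Ordinal.{0}) (Z : Set Ordinal.{0}) (φ : Ordinal.{0} → Ordinal.{0})
    (A : Finset Ordinal.{0}) (c : Ordinal.{0} → Ordinal.{0}),
    b < L κ (i + 1) → ¬ Sm M Z → StrictMonoOn φ Z → (∀ z ∈ Z, φ z < b) → i + 1 ≤ A.card →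
    InjOn c A → (∀ a ∈ A, c a < b) →
    ∃ F E : Finset Ordinal.{0}, (F : Set Ordinal.{0}) ⊆ Z ∧ E ⊆ A ∧ F.card + E.card ≤ i ∧
      ∃ y ∈ A, y ∉ E ∧ c y ∈ D s e (i + 1) 0 (insert b (F.image φ ∪ E.image c))

variable {κ : Cardinal.{0}} {s : ℕ → Ordinal.{0}}
  {e : ℕ → Ordinal.{0} → Ordinal.{0} → Ordinal.{0}}

theorem claim_zero : ClaimAt κ s e 0 (L κ 1) := by
  intro b Z φ A c hb hZ hφ hφb _ _ _
  exact absurd ⟨φ, hφ, fun z hz => (hφb z hz).trans hb⟩ hZ

theorem claim_succ (hκ : ℵ₀ ≤ κ) (h : Sys κ s e) {i : ℕ} {M : Ordinal.{0}}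
    (ih : ClaimAt κ s e i M) :
    ClaimAt κ s e (i + 1) ((2 * (M + 1)) ^ (Order.succ κ).ord) := by
  classical
  intro b Z φ A c hb hZ hφ hφb hA hc hcb
  by_contra hcon
  -- the main closing step
  have close : ∀ (F E : Finset Ordinal.{0}) (y : Ordinal.{0}) (K' : ℕ) (Q : Finset Ordinal.{0}),
      (F : Set Ordinal.{0}) ⊆ Z → E ⊆ A → F.card + E.card ≤ i + 1 → y ∈ A → y ∉ E →
      K' ≤ m (e (i + 1)) (insert b (F.image φ ∪ E.image c)) →
      Q ⊆ O (e (i + 1)) (insert b (F.image φ ∪ E.image c)) →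
      e (i + 1) b (c y) ∈ D s e (i + 1) K' Q → False := by
    intro F E y K' Q hF hE hc1 hy hyE hK hQ hmem
    exact hcon ⟨F, E, hF, hE, hc1, y, hy, hyE,
      D_step h (b := b) (by simp) (hcb y hy) (hK.trans (le_max_right _ _)) hQ hmem⟩
  set c' : Ordinal.{0} → Ordinal.{0} := fun a => e (i + 1) b (c a) with hc'
  have hinj' : InjOn c' A := fun x hx y hy hxy =>
    hc hx hy (h.inj (i + 1) b (hcb x hx) (hcb y hy) hxy)
  have hc'L : ∀ a ∈ A, c' a < L κ (i + 1) := fun a ha => h.lt (i + 1) b hb _ (hcb a ha)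
  -- membership of numbers in `O`
  have memO1 : ∀ (F E : Finset Ordinal.{0}), E ⊆ A → ∀ a ∈ E,
      c' a ∈ O (e (i + 1)) (insert b (F.image φ ∪ E.image c)) := by
    intro F E hE a ha
    exact e_mem_O _ (Finset.mem_insert_self _ _)
      (Finset.mem_insert_of_mem (Finset.mem_union_right _ (Finset.mem_image_of_mem c ha)))
      (hcb a (hE ha))
  have memO2 : ∀ (F E : Finset Ordinal.{0}), (F : Set Ordinal.{0}) ⊆ Z → ∀ z ∈ F, ∀ g,
      g ∈ walk (e (i + 1)) b (φ z) →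
      idx (e (i + 1)) g (φ z) ∈ O (e (i + 1)) (insert b (F.image φ ∪ E.image c)) := by
    intro F E hF z hz g hg
    exact idx_mem_O _ (Finset.mem_insert_self _ _)
      (Finset.mem_insert_of_mem (Finset.mem_union_left _ (Finset.mem_image_of_mem φ hz)))
      (hφb z (hF hz)) hg
  have hgL : ∀ g Z₀, Z₀ ⊆ Z → Node (e (i + 1)) b φ g Z₀ → ∀ z ∈ Z₀,
      idx (e (i + 1)) g (φ z) < L κ (i + 1) := by
    intro g Z₀ hZ₀ hnode z hz
    obtain ⟨h1, h2⟩ := mem_walk_lt _ _ _ _ (hnode z hz)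
    obtain ⟨h3, h4, h5⟩ := nxt_spec (e (i + 1)) h1
    rw [← h5]
    exact h.lt (i + 1) g (h2.trans_lt hb) _ h4
  -- no fork
  have hfork : ∀ g Z₀, Z₀ ⊆ Z → Node (e (i + 1)) b φ g Z₀ →
      #{j | ∀ r : ℕ, ∃ z ∈ Z₀, idx (e (i + 1)) g (φ z) = j ∧
        r ≤ (walk (e (i + 1)) g (φ z)).length} < Cardinal.lift.{1} (Order.succ κ) := by
    intro g Z₀ hZ₀ hnode
    by_contra hJ
    rw [not_lt] at hJ
    obtain ⟨j, hj, E, hE, hEc, y, hy, hyE, r, hr⟩ := lemmaD hκ h i A c' _ (by omega) hinj' hc'L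
      (by
        rintro j hj
        obtain ⟨z, hz, rfl, -⟩ := hj 0
        exact hgL g Z₀ hZ₀ hnode z hz) hJ
    obtain ⟨z, hz, hzj, hzr⟩ := hj r
    have hzZ : (({z} : Finset Ordinal.{0}) : Set Ordinal.{0}) ⊆ Z := by
      simpa using hZ₀ hz
    refine close {z} E y r _ hzZ hE (by rw [Finset.card_singleton]; omega) hy hyE ?_ ?_ hr
    · refine hzr.trans ((length_le_of_mem _ _ _ _ (hnode z hz)).trans ?_)
      exact length_le_m _ (Finset.mem_insert_self _ _)
        (Finset.mem_insert_of_mem (Finset.mem_union_left _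
          (Finset.mem_image_of_mem φ (Finset.mem_singleton_self z))))
    · intro v hv
      rw [Finset.mem_insert, Finset.mem_image] at hv
      rcases hv with rfl | ⟨a, ha, rfl⟩
      · rw [← hzj]
        exact memO2 {z} E hzZ z (Finset.mem_singleton_self z) g (hnode z hz)
      · exact memO1 {z} E hE a ha
  -- no shallow large node
  have hsh : ∀ g Z₀, Z₀ ⊆ Z → Node (e (i + 1)) b φ g Z₀ →
      Sm (M + 1) ((fun z => idx (e (i + 1)) g (φ z)) '' Z₀) := by
    intro g Z₀ hZ₀ hnode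
    by_contra hJ
    have hlt : ∀ z ∈ Z₀, φ z < g := fun z hz => (mem_walk_lt _ _ _ _ (hnode z hz)).1
    set φ' : Ordinal.{0} → Ordinal.{0} := fun z => idx (e (i + 1)) g (φ z) with hφ'
    have hzf : ∀ j, ∃ z, j ∈ φ' '' Z₀ → z ∈ Z₀ ∧ φ' z = j := by
      intro j
      by_cases hj : j ∈ φ' '' Z₀
      · obtain ⟨z, hz, hzj⟩ := hj
        exact ⟨z, fun _ => ⟨hz, hzj⟩⟩
      · exact ⟨0, fun hj' => absurd hj' hj⟩
    choose zf hzf using hzf
    have hzmono : StrictMonoOn zf (φ' '' Z₀) := by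
      intro j hj j' hj' hjj
      by_contra hle
      rw [not_lt] at hle
      have h1 : φ' (zf j') ≤ φ' (zf j) := idx_mono _
        ((hφ.mono hZ₀).monotoneOn (hzf j' hj').1 (hzf j hj).1 hle) (hlt _ (hzf j hj).1)
      rw [(hzf j hj).2, (hzf j' hj').2] at h1
      exact absurd hjj (not_lt.mpr h1)
    set Z' : Set Ordinal.{0} := zf '' (φ' '' Z₀) with hZ'
    have hZ'Z₀ : Z' ⊆ Z₀ := by
      rintro _ ⟨j, hj, rfl⟩
      exact (hzf j hj).1
    have hφ'mono : StrictMonoOn φ' Z' := by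
      rintro _ ⟨j, hj, rfl⟩ _ ⟨j', hj', rfl⟩ hjj
      rw [(hzf j hj).2, (hzf j' hj').2]
      by_contra hle
      rw [not_lt] at hle
      exact absurd hjj (not_lt.mpr (hzmono.monotoneOn hj' hj hle))
    have hZ'large : ¬ Sm (M + 1) Z' := fun h1 =>
      hJ (h1.comp hzmono (fun j hj => ⟨j, hj, rfl⟩))
    have hφ'L : ∀ z ∈ Z', φ' z < L κ (i + 1) := fun z hz => hgL g Z₀ hZ₀ hnode z (hZ'Z₀ hz)
    have h0 : ∃ z0 ∈ Z', ¬ Sm M (Z' ∩ Iio z0) := by
      by_contra h1
      push Not at h1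
      exact hZ'large (Sm.succ h1)
    obtain ⟨z0, hz0, hz0large⟩ := h0
    have hAne : A.Nonempty := Finset.card_pos.mp (by omega)
    obtain ⟨u, hu, hmax⟩ := Finset.exists_max_image A c' hAne
    by_cases hcase : Sm M {z | z ∈ Z' ∧ φ' z < c' u}
    · -- base `φ' z0`
      have h1 : c' u < φ' z0 := by
        by_contra h2
        rw [not_lt] at h2
        refine hz0large (hcase.mono (le_refl _) ?_)
        rintro z ⟨hz, hzz⟩
        exact ⟨hz, (hφ'mono hz hz0 hzz).trans_le h2⟩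
      obtain ⟨F, E, hF, hE, hcard, y, hy, hyE, hmem⟩ := ih (φ' z0) (Z' ∩ Iio z0) φ' A c'
        (hφ'L z0 hz0) hz0large (hφ'mono.mono (fun z hz => hz.1))
        (fun z hz => hφ'mono hz.1 hz0 hz.2) (by omega) hinj'
        (fun a ha => (hmax a ha).trans_lt h1)
      have hFZ : ((insert z0 F : Finset Ordinal.{0}) : Set Ordinal.{0}) ⊆ Z := by
        rw [Finset.coe_insert]
        exact Set.insert_subset (hZ₀ (hZ'Z₀ hz0)) (fun z hz => hZ₀ (hZ'Z₀ (hF hz).1))
      refine close (insert z0 F) E y 0 _ hFZ hE ?_ hy hyE (Nat.zero_le _) ?_ hmem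
      · have := Finset.card_insert_le z0 F
        omega
      · intro v hv
        rw [Finset.mem_insert, Finset.mem_union, Finset.mem_image, Finset.mem_image] at hv
        rcases hv with rfl | ⟨z, hz, rfl⟩ | ⟨a, ha, rfl⟩
        · exact memO2 _ E hFZ z0 (Finset.mem_insert_self _ _) g (hnode z0 (hZ'Z₀ hz0))
        · exact memO2 _ E hFZ z (Finset.mem_insert_of_mem hz) g (hnode z (hZ'Z₀ (hF hz).1))
        · exact memO1 _ E hE a ha
    · -- base `c' u`
      obtain ⟨F, E, hF, hE, hcard, y, hy, hyE, hmem⟩ := ih (c' u)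
        {z | z ∈ Z' ∧ φ' z < c' u} φ' (A.erase u) c'
        (hc'L u hu) hcase (hφ'mono.mono (fun z hz => hz.1))
        (fun z hz => hz.2) (by rw [Finset.card_erase_of_mem hu]; omega)
        (hinj'.mono (by simp))
        (fun a ha => lt_of_le_of_ne (hmax a (Finset.mem_of_mem_erase ha)) (fun h3 =>
          Finset.ne_of_mem_erase ha (hinj' (Finset.mem_of_mem_erase ha) hu h3)))
      have hFZ : (F : Set Ordinal.{0}) ⊆ Z := fun z hz => hZ₀ (hZ'Z₀ (hF hz).1)
      have hEA : insert u E ⊆ A := Finset.insert_subset hu (hE.trans (Finset.erase_subset _ _))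
      refine close F (insert u E) y 0 _ hFZ hEA ?_ (Finset.mem_of_mem_erase hy) ?_
        (Nat.zero_le _) ?_ hmem
      · have := Finset.card_insert_le u E
        omega
      · rw [Finset.mem_insert, not_or]
        exact ⟨Finset.ne_of_mem_erase hy, hyE⟩
      · intro v hv
        rw [Finset.mem_insert, Finset.mem_union, Finset.mem_image, Finset.mem_image] at hv
        rcases hv with rfl | ⟨z, hz, rfl⟩ | ⟨a, ha, rfl⟩
        · exact memO1 _ _ hEA u (Finset.mem_insert_self _ _)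
        · exact memO2 _ _ hFZ z hz g (hnode z (hZ'Z₀ (hF hz).1))
        · exact memO1 _ _ hEA a (Finset.mem_insert_of_mem ha)
  -- conclusion
  have hone : (1 : Ordinal.{0}) ≤ M + 1 := le_add_self
  obtain ⟨t, ht, ht2⟩ := tree_small hκ (h.inj (i + 1)) hφ hone hsh hfork b Z (subset_refl _)
    (fun z hz => mem_walk_self _ (hφb z hz))
  refine hZ (ht2.mono ?_ (subset_refl _))
  refine Ordinal.opow_le_opow_right ?_ ht.le
  exact mul_pos (by norm_num) (lt_of_lt_of_le zero_lt_one hone)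

theorem exists_claim (hκ : ℵ₀ ≤ κ) (h : Sys κ s e) :
    ∀ i, ∃ M : Ordinal.{0}, M.card ≤ Order.succ κ ∧ ClaimAt κ s e i M := by
  intro i
  have hκ1 : ℵ₀ ≤ Order.succ κ := hκ.trans (Order.le_succ κ)
  induction i with
  | zero =>
    refine ⟨L κ 1, ?_, claim_zero⟩
    show (Order.succ κ).ord.card ≤ _
    rw [Cardinal.card_ord]
  | succ i ih =>
    obtain ⟨M, hM, hclaim⟩ := ih
    refine ⟨_, ?_, claim_succ hκ h hclaim⟩
    refine (Ordinal.card_opow_le _ _).trans (max_le hκ1 (max_le ?_ ?_))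
    · rw [Ordinal.card_mul, Ordinal.card_add, Ordinal.card_one]
      refine (mul_le_mul' (b := Order.succ κ) (d := Order.succ κ) ?_ ?_).trans
        (Cardinal.mul_eq_self hκ1).le
      · have h2 : ((2 : Ordinal.{0}).card) = 2 := by
          exact_mod_cast Ordinal.card_nat 2
        rw [h2]
        exact (Cardinal.natCast_lt_aleph0 (n := 2)).le.trans hκ1
      · exact (add_le_add hM (one_le_aleph0.trans hκ1)).trans (Cardinal.add_eq_self hκ1).le
    · rw [Cardinal.card_ord]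

end H43.FreeSet
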