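import Mathlib

set_option autoImplicit false

open Cardinal Ordinal Set

namespace H43.FreeSet

/-- The least value of `e g` on `[a, g)`. -/
noncomputable def idx (e : Ordinal.{0} → Ordinal.{0} → Ordinal.{0}) (g a : Ordinal.{0}) :
    Ordinal.{0} :=
  sInf (e g '' {β | a ≤ β ∧ β < g})

theorem exists_nxt (e : Ordinal.{0} → Ordinal.{0} → Ordinal.{0}) {g a : Ordinal.{0}}
    (h : a < g) : ∃ β, a ≤ β ∧ β < g ∧ e g β = idx e g a := by
  have h1 : (e g '' {β | a ≤ β ∧ β < g}).Nonempty := ⟨e g a, a, ⟨le_refl _, h⟩, rfl⟩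
  obtain ⟨β, hβ, h2⟩ := csInf_mem h1
  exact ⟨β, hβ.1, hβ.2, h2⟩

open Classical in
/-- The next node of the walk from `g` to `a`. -/
noncomputable def nxt (e : Ordinal.{0} → Ordinal.{0} → Ordinal.{0}) (g a : Ordinal.{0}) :
    Ordinal.{0} :=
  if h : a < g then Classical.choose (exists_nxt e h) else 0

theorem nxt_spec (e : Ordinal.{0} → Ordinal.{0} → Ordinal.{0}) {g a : Ordinal.{0}}
    (h : a < g) : a ≤ nxt e g a ∧ nxt e g a < g ∧ e g (nxt e g a) = idx e g a := by
  unfold nxt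
  rw [dif_pos h]
  exact Classical.choose_spec (exists_nxt e h)

theorem idx_mono (e : Ordinal.{0} → Ordinal.{0} → Ordinal.{0}) {g a a' : Ordinal.{0}}
    (h : a ≤ a') (h' : a' < g) : idx e g a ≤ idx e g a' := by
  obtain ⟨h1, h2, h3⟩ := nxt_spec e h'
  rw [← h3]
  exact csInf_le' ⟨_, ⟨h.trans h1, h2⟩, rfl⟩

theorem nxt_eq {e : Ordinal.{0} → Ordinal.{0} → Ordinal.{0}} {g a a' : Ordinal.{0}}
    (he : InjOn (e g) (Iio g)) (h : a < g) (h' : a' < g) (hi : idx e g a = idx e g a') :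
    nxt e g a = nxt e g a' := by
  obtain ⟨h1, h2, h3⟩ := nxt_spec e h
  obtain ⟨h1', h2', h3'⟩ := nxt_spec e h'
  exact he h2 h2' (by rw [h3, h3', hi])

open Classical in
/-- The nodes `b = b₀ > b₁ > ⋯ > b_{R-1}` (without the end point `a`) of the walk from `b` to
`a`. -/
noncomputable def walk (e : Ordinal.{0} → Ordinal.{0} → Ordinal.{0}) (b a : Ordinal.{0}) :
    List Ordinal.{0} :=
  if h : a < b then b :: walk e (nxt e b a) a else []
termination_by b
decreasing_by exact (nxt_spec e h).2.1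

theorem walk_of_lt (e : Ordinal.{0} → Ordinal.{0} → Ordinal.{0}) {b a : Ordinal.{0}}
    (h : a < b) : walk e b a = b :: walk e (nxt e b a) a := by
  rw [walk, dif_pos h]

theorem walk_of_not_lt (e : Ordinal.{0} → Ordinal.{0} → Ordinal.{0}) {b a : Ordinal.{0}}
    (h : ¬ a < b) : walk e b a = [] := by
  rw [walk, dif_neg h]

theorem mem_walk_self (e : Ordinal.{0} → Ordinal.{0} → Ordinal.{0}) {b a : Ordinal.{0}}
    (h : a < b) : b ∈ walk e b a := by
  rw [walk_of_lt e h]; exact List.mem_cons_self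

theorem length_le_of_mem (e : Ordinal.{0} → Ordinal.{0} → Ordinal.{0}) (a : Ordinal.{0}) :
    ∀ b g, g ∈ walk e b a → (walk e g a).length ≤ (walk e b a).length := by
  intro b
  induction b using WellFoundedLT.induction with
  | ind b ih =>
    intro g hg
    by_cases h : a < b
    · rw [walk_of_lt e h] at hg
      rcases List.mem_cons.mp hg with rfl | hg
      · exact le_refl _
      · have := ih _ (nxt_spec e h).2.1 g hg
        rw [walk_of_lt e h, List.length_cons]
        omega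
    · rw [walk_of_not_lt e h] at hg
      simp at hg

theorem mem_walk_nxt (e : Ordinal.{0} → Ordinal.{0} → Ordinal.{0}) (a : Ordinal.{0}) :
    ∀ b g, g ∈ walk e b a → a < nxt e g a → nxt e g a ∈ walk e b a := by
  intro b
  induction b using WellFoundedLT.induction with
  | ind b ih =>
    intro g hg hlt
    by_cases h : a < b
    · rw [walk_of_lt e h] at hg ⊢
      rcases List.mem_cons.mp hg with rfl | hg
      · exact List.mem_cons_of_mem _ (mem_walk_self e hlt)
      · exact List.mem_cons_of_mem _ (ih _ (nxt_spec e h).2.1 g hg hlt)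
    · rw [walk_of_not_lt e h] at hg
      simp at hg

open Classical in
/-- The finite set of numbers attached to the pair `a < b`. -/
noncomputable def nums (e : Ordinal.{0} → Ordinal.{0} → Ordinal.{0}) (b a : Ordinal.{0}) :
    Finset Ordinal.{0} :=
  insert (e b a) ((walk e b a).toFinset.image (fun g => idx e g a))

open Classical in
/-- The finite set of numbers attached to a finite set. -/
noncomputable def O (e : Ordinal.{0} → Ordinal.{0} → Ordinal.{0}) (P : Finset Ordinal.{0}) :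
    Finset Ordinal.{0} :=
  P.biUnion (fun b => (P.filter (fun a => a < b)).biUnion (fun a => nums e b a))

/-- The maximal number of steps. -/
noncomputable def m (e : Ordinal.{0} → Ordinal.{0} → Ordinal.{0}) (P : Finset Ordinal.{0}) : ℕ :=
  P.sup (fun b => P.sup (fun a => (walk e b a).length))

theorem mem_O_iff (e : Ordinal.{0} → Ordinal.{0} → Ordinal.{0}) (P : Finset Ordinal.{0})
    (v : Ordinal.{0}) : v ∈ O e P ↔ ∃ b ∈ P, ∃ a ∈ P, a < b ∧
      (v = e b a ∨ ∃ g ∈ walk e b a, v = idx e g a) := by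
  classical
  unfold O nums
  simp only [Finset.mem_biUnion, Finset.mem_filter, Finset.mem_insert, Finset.mem_image,
    List.mem_toFinset]
  constructor
  · rintro ⟨b, hb, a, ⟨ha, hab⟩, h | ⟨g, hg, h⟩⟩
    · exact ⟨b, hb, a, ha, hab, Or.inl h⟩
    · exact ⟨b, hb, a, ha, hab, Or.inr ⟨g, hg, h.symm⟩⟩
  · rintro ⟨b, hb, a, ha, hab, h | ⟨g, hg, h⟩⟩
    · exact ⟨b, hb, a, ⟨ha, hab⟩, Or.inl h⟩
    · exact ⟨b, hb, a, ⟨ha, hab⟩, Or.inr ⟨g, hg, h.symm⟩⟩

theorem e_mem_O (e : Ordinal.{0} → Ordinal.{0} → Ordinal.{0}) {P : Finset Ordinal.{0}}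
    {a b : Ordinal.{0}} (hb : b ∈ P) (ha : a ∈ P) (h : a < b) : e b a ∈ O e P :=
  (mem_O_iff e P _).mpr ⟨b, hb, a, ha, h, Or.inl rfl⟩

theorem idx_mem_O (e : Ordinal.{0} → Ordinal.{0} → Ordinal.{0}) {P : Finset Ordinal.{0}}
    {a b g : Ordinal.{0}} (hb : b ∈ P) (ha : a ∈ P) (h : a < b) (hg : g ∈ walk e b a) :
    idx e g a ∈ O e P :=
  (mem_O_iff e P _).mpr ⟨b, hb, a, ha, h, Or.inr ⟨g, hg, rfl⟩⟩

theorem O_mono (e : Ordinal.{0} → Ordinal.{0} → Ordinal.{0}) {P Q : Finset Ordinal.{0}}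
    (h : P ⊆ Q) : O e P ⊆ O e Q := by
  intro v hv
  rw [mem_O_iff] at hv ⊢
  obtain ⟨b, hb, a, ha, h1, h2⟩ := hv
  exact ⟨b, h hb, a, h ha, h1, h2⟩

theorem length_le_m (e : Ordinal.{0} → Ordinal.{0} → Ordinal.{0}) {P : Finset Ordinal.{0}}
    {a b : Ordinal.{0}} (hb : b ∈ P) (ha : a ∈ P) : (walk e b a).length ≤ m e P :=
  (Finset.le_sup (f := fun a => (walk e b a).length) ha).trans
    (Finset.le_sup (f := fun b => P.sup (fun a => (walk e b a).length)) hb)

theorem m_mono (e : Ordinal.{0} → Ordinal.{0} → Ordinal.{0}) {P Q : Finset Ordinal.{0}}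
    (h : P ⊆ Q) : m e P ≤ m e Q :=
  Finset.sup_le (fun _ hb => Finset.sup_le (fun _ ha => length_le_m e (h hb) (h ha)))

end H43.FreeSet
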